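import Pool.Agent.H562Z.Roe.Ops
import Pool.Agent.H562Z.Cone.CP

/-!
# Block diagonal finite dimensional algebras inside the uniform Roe algebra
-/

set_option autoImplicit false
set_option linter.unusedSectionVars false
set_option linter.unusedSimpArgs false
set_option linter.deprecated false
set_option linter.style.haveILetI false

namespace Pool.Agent.H562Z.Roe

open scoped InnerProductSpace ComplexConjugate CStarAlgebra
open Pool.Agent.H812R3.KP (B dl ent ent_eq_inner ent_star ent_mul hasSum_apply ent_ext ent_add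
  ent_sub ent_smul ent_zero ent_sum ent_one norm_ent_le norm_sq_eq summable_sq mem_of_summable
  perm ent_perm_mul ent_mul_perm dl_apply inner_dl cmp amp ent_cmp ent_amp)
open Pool.Agent.H562Z.Cone (Gram gram_decomp inner_star_mul norm_one_le')

variable {X : Type}

/-- a labelling together with a folding map onto finitely many fibres -/
structure Blk (X : Type) where
  Λ : Type
  ℓ : X → Λ
  ρ : X → X
  idem : ∀ x, ρ (ρ x) = ρ x
  lab : ∀ x y, ℓ x = ℓ y → ℓ (ρ x) = ℓ (ρ y)
  inj : ∀ x y, ℓ x = ℓ y → ρ x = ρ y → x = y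
  surj : ∀ x z, ℓ z = ℓ (ρ x) → ∃ w, ℓ w = ℓ x ∧ ρ w = z
  fin : (Set.range ρ).Finite

namespace Blk

variable (β : Blk X)

theorem J_inj : Function.Injective fun x => (β.ρ x, β.ℓ x) := by
  intro x y h
  simp only [Prod.mk.injEq] at h
  exact β.inj x y h.2 h.1

/-- the folding map on operators -/
noncomputable def Φ : B X →L[ℂ] B X :=
  (cmp (fun x => (β.ρ x, β.ℓ x)) β.J_inj).comp (amp (Equiv.refl (X × β.Λ)))

open Classical in
theorem ent_Φ (T : B X) (x y : X) :
    ent (β.Φ T) x y = if β.ℓ x = β.ℓ y then ent T (β.ρ x) (β.ρ y) else 0 := by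
  rw [Φ, ContinuousLinearMap.comp_apply, ent_cmp]
  exact ent_amp (Equiv.refl (X × β.Λ)) T _ _ _ _

theorem Φ_idem (T : B X) : β.Φ (β.Φ T) = β.Φ T := by
  classical
  apply ent_ext
  intro x y
  rw [ent_Φ, ent_Φ, ent_Φ]
  by_cases h : β.ℓ x = β.ℓ y
  · rw [if_pos h, if_pos h, if_pos (β.lab x y h), β.idem, β.idem]
  · rw [if_neg h, if_neg h]

theorem fix_zero {T : B X} (hT : β.Φ T = T) {x y : X} (h : β.ℓ x ≠ β.ℓ y) : ent T x y = 0 := by
  rw [← hT, ent_Φ, if_neg h]

theorem fix_eq {T : B X} (hT : β.Φ T = T) {x y : X} (h : β.ℓ x = β.ℓ y) :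
    ent T (β.ρ x) (β.ρ y) = ent T x y := by
  conv_rhs => rw [← hT, ent_Φ, if_pos h]

theorem fix_mul {S T : B X} (hS : β.Φ S = S) (hT : β.Φ T = T) : β.Φ (S * T) = S * T := by
  classical
  apply ent_ext
  intro x y
  rw [ent_Φ]
  by_cases h : β.ℓ x = β.ℓ y
  · rw [if_pos h]
    have h1 := ent_mul S T (β.ρ x) (β.ρ y)
    have h2 := ent_mul S T x y
    let i1 : {z // β.ℓ z = β.ℓ x} → X := fun z => β.ρ z.1
    have hi1 : Function.Injective i1 := fun z w hzw =>
      Subtype.ext (β.inj _ _ (z.2.trans w.2.symm) hzw)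
    have h3 := (hi1.hasSum_iff (f := fun z => ent S (β.ρ x) z * ent T z (β.ρ y))
      (a := ent (S * T) (β.ρ x) (β.ρ y)) ?_).2 h1
    have h4 := ((Subtype.val_injective (p := fun z => β.ℓ z = β.ℓ x)).hasSum_iff
      (f := fun z => ent S x z * ent T z y) (a := ent (S * T) x y) ?_).2 h2
    · refine h3.unique ?_
      convert h4 using 1
      funext z
      simp only [Function.comp_apply, i1]
      rw [β.fix_eq hS z.2.symm, β.fix_eq hT (z.2.trans h)]
    · intro z hz
      rw [β.fix_zero hS, zero_mul]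
      intro h'
      exact hz ⟨⟨z, h'.symm⟩, rfl⟩
    · intro z hz
      rw [β.fix_zero hS, zero_mul]
      intro h'
      obtain ⟨w, hw1, hw2⟩ := β.surj x z h'.symm
      exact hz ⟨⟨w, hw1⟩, hw2⟩
  · rw [if_neg h]
    by_contra hc
    obtain ⟨z, h1, h2⟩ := ent_mul_ne (Ne.symm hc)
    have h3 : β.ℓ x = β.ℓ z := by
      by_contra h'
      exact h1 (β.fix_zero hS h')
    have h4 : β.ℓ z = β.ℓ y := by
      by_contra h'
      exact h2 (β.fix_zero hT h')
    exact h (h3.trans h4)

theorem Φ_one : β.Φ 1 = 1 := by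
  classical
  apply ent_ext
  intro x y
  rw [ent_Φ, ent_one, ent_one]
  by_cases h : x = y
  · subst h; simp
  · rw [if_neg h]
    by_cases h' : β.ℓ x = β.ℓ y
    · rw [if_pos h', if_neg fun h'' => h (β.inj x y h' h'')]
    · rw [if_neg h']

theorem Φ_star (T : B X) : β.Φ (star T) = star (β.Φ T) := by
  classical
  apply ent_ext
  intro x y
  rw [ent_star, ent_Φ, ent_Φ, ent_star]
  by_cases h : β.ℓ x = β.ℓ y
  · rw [if_pos h, if_pos h.symm]
  · rw [if_neg h, if_neg (Ne.symm h), map_zero]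

/-- the fixed points of the folding map -/
noncomputable def sub : StarSubalgebra ℂ (B X) where
  carrier := {T | β.Φ T = T}
  mul_mem' := fun h1 h2 => β.fix_mul h1 h2
  add_mem' := by
    intro S T (h1 : β.Φ S = S) (h2 : β.Φ T = T)
    change β.Φ (S + T) = S + T
    rw [map_add, h1, h2]
  algebraMap_mem' := by
    intro c
    change β.Φ _ = _
    rw [Algebra.algebraMap_eq_smul_one, map_smul, Φ_one]
  star_mem' := by
    intro T (h : β.Φ T = T)
    change β.Φ _ = _
    rw [Φ_star, h]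

theorem sub_closed : IsClosed (β.sub : Set (B X)) :=
  isClosed_eq β.Φ.continuous continuous_id

/-- the finite dimensional algebra -/
def Fd : Type := β.sub

noncomputable instance : CStarAlgebra β.Fd :=
  StarSubalgebra.cstarAlgebra β.sub (h_closed := β.sub_closed)

/-- the inclusion -/
def val (T : β.Fd) : B X := T.1

theorem val_mul (S T : β.Fd) : β.val (S * T) = β.val S * β.val T := rfl
theorem val_add (S T : β.Fd) : β.val (S + T) = β.val S + β.val T := rfl
theorem val_smul (c : ℂ) (T : β.Fd) : β.val (c • T) = c • β.val T := rfl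
theorem val_star (T : β.Fd) : β.val (star T) = star (β.val T) := rfl
theorem val_zero : β.val 0 = 0 := rfl
theorem norm_val (T : β.Fd) : ‖β.val T‖ = ‖T‖ := rfl
theorem val_fix (T : β.Fd) : β.Φ (β.val T) = β.val T := T.2
theorem val_inj {S T : β.Fd} (h : β.val S = β.val T) : S = T := Subtype.ext h

theorem val_sum {ι : Type} (s : Finset ι) (T : ι → β.Fd) :
    β.val (∑ i ∈ s, T i) = ∑ i ∈ s, β.val (T i) := by
  classical
  induction s using Finset.induction_on with
  | empty => rfl
  | insert a s ha ih => rw [Finset.sum_insert ha, Finset.sum_insert ha, val_add, ih]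

instance : FiniteDimensional ℂ β.Fd := by
  haveI : Finite (Set.range β.ρ) := β.fin
  let e : β.Fd →ₗ[ℂ] (Set.range β.ρ × Set.range β.ρ → ℂ) :=
    { toFun := fun T z => ent (β.val T) z.1 z.2
      map_add' := fun S T => by
        funext z
        rw [val_add, ent_add]
        rfl
      map_smul' := fun c T => by
        funext z
        rw [val_smul, ent_smul]
        rfl }
  refine FiniteDimensional.of_injective e fun S T h => β.val_inj (ent_ext fun x y => ?_)
  by_cases hl : β.ℓ x = β.ℓ y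
  · rw [← β.fix_eq (β.val_fix S) hl, ← β.fix_eq (β.val_fix T) hl]
    exact congrFun h (⟨_, x, rfl⟩, ⟨_, y, rfl⟩)
  · rw [β.fix_zero (β.val_fix S) hl, β.fix_zero (β.val_fix T) hl]

/-- the folding map with values in the finite dimensional algebra -/
noncomputable def fold (T : B X) : β.Fd := ⟨β.Φ T, β.Φ_idem T⟩

theorem val_fold (T : B X) : β.val (β.fold T) = β.Φ T := rfl

theorem norm_Φ_le (T : B X) : ‖β.Φ T‖ ≤ ‖T‖ := by
  rw [Φ, ContinuousLinearMap.comp_apply, H812R3.KP.cmp_apply]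
  refine (ContinuousLinearMap.opNorm_comp_le _ _).trans ?_
  have h1 := H812R3.KP.norm_pull_le (fun x => (β.ρ x, β.ℓ x)) β.J_inj
  have h2 : ‖H812R3.KP.push (fun x => (β.ρ x, β.ℓ x)) β.J_inj‖ ≤ 1 := by
    rw [H812R3.KP.push, LinearIsometryEquiv.norm_map]
    exact h1
  have h3 : ‖amp (Equiv.refl (X × β.Λ)) T‖ ≤ ‖T‖ := H812R3.KP.norm_ampF_le _ _
  have h4 := ContinuousLinearMap.opNorm_comp_le (amp (Equiv.refl (X × β.Λ)) T)
    (H812R3.KP.push (fun x => (β.ρ x, β.ℓ x)) β.J_inj)
  calc _ ≤ 1 * (‖T‖ * 1) := by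
        refine mul_le_mul h1 (h4.trans ?_) (norm_nonneg _) zero_le_one
        exact mul_le_mul h3 h2 (norm_nonneg _) (norm_nonneg _)
    _ = ‖T‖ := by ring

end Blk

/-- matrix units -/
noncomputable def mu (x y : X) : B X := InnerProductSpace.rankOne ℂ (dl x) (dl y)

theorem ent_mu [DecidableEq X] (x y a b : X) :
    ent (mu x y) a b = if a = x ∧ b = y then 1 else 0 := by
  rw [ent, mu, InnerProductSpace.rankOne_apply, inner_dl, lp.coeFn_smul, Pi.smul_apply, dl_apply,
    dl_apply]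
  by_cases h1 : a = x <;> by_cases h2 : b = y
  · simp [h1, h2]
  · simp [h1, h2, Ne.symm h2]
  · simp [h1, h2]
  · simp [h1, h2]

namespace Blk

variable (β : Blk X)

/-- Gram decomposition of the folding map -/
theorem gram_Φ {k : ℕ} (a : Fin k → B X) : ∃ (n : ℕ) (b : Fin n → Fin k → β.Fd),
    ∀ p q, β.fold (star (a p) * a q) = ∑ i, star (b i p) * b i q := by
  classical
  haveI : Finite (Set.range β.ρ) := β.fin
  haveI : Fintype (Set.range β.ρ) := Fintype.ofFinite _
  obtain ⟨n, c, hc⟩ := gram_decomp (fun s : Fin k × Set.range β.ρ => a s.1 (dl s.2.1))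
  -- base points
  have hb : ∀ l : β.Λ, ∃ g : Option X, ∀ x, β.ℓ x = l → ∃ z, g = some z ∧ β.ℓ z = l := by
    intro l
    by_cases h : ∃ z, β.ℓ z = l
    · obtain ⟨z, hz⟩ := h
      exact ⟨some z, fun x _ => ⟨z, rfl, hz⟩⟩
    · exact ⟨none, fun x hx => absurd ⟨x, hx⟩ h⟩
  choose g hg using hb
  have hb2 : ∀ x, ∃ z, g (β.ℓ x) = some z ∧ β.ℓ z = β.ℓ x := fun x => hg _ x rfl
  choose bs hbs1 hbs2 using hb2
  have hbs3 : ∀ x y, β.ℓ x = β.ℓ y → bs x = bs y := by
    intro x y h
    have h1 := hbs1 x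
    rw [h, hbs1 y] at h1
    exact (Option.some.inj h1).symm
  let T : Fin n → Fin k → B X := fun i p => ∑ w : Set.range β.ρ, c i (p, w) • mu (bs w.1) w.1
  have hT : ∀ i p z y, ent (T i p) z (β.ρ y) =
      if z = bs (β.ρ y) then c i (p, ⟨_, y, rfl⟩) else 0 := by
    intro i p z y
    simp only [T]
    rw [ent_sum, Finset.sum_eq_single ⟨β.ρ y, y, rfl⟩]
    · rw [ent_smul, ent_mu]
      by_cases h : z = bs (β.ρ y) <;> simp [h]
    · intro w _ hw
      rw [ent_smul, ent_mu, if_neg, mul_zero]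
      rintro ⟨_, h2⟩
      exact hw (Subtype.ext h2.symm)
    · simp
  refine ⟨n, fun i p => β.fold (T i p), fun p q => β.val_inj (ent_ext fun x y => ?_)⟩
  rw [val_fold, val_sum, ent_sum, ent_Φ]
  obtain ⟨w, hw1, hw2⟩ := β.surj x (bs (β.ρ x)) (hbs2 _)
  have key : ∀ i, ent (β.val (star (β.fold (T i p)) * β.fold (T i q))) x y =
      if β.ℓ x = β.ℓ y then conj (c i (p, ⟨_, x, rfl⟩)) * c i (q, ⟨_, y, rfl⟩) else 0 := by
    intro i
    rw [val_mul, val_star, val_fold, val_fold]
    have h1 := ent_mul (star (β.Φ (T i p))) (β.Φ (T i q)) x y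
    have h2 := hasSum_single (L := SummationFilter.unconditional X)
      (f := fun z => ent (star (β.Φ (T i p))) x z * ent (β.Φ (T i q)) z y) w ?_
    · rw [h1.unique h2, ent_star, ent_Φ, ent_Φ, if_pos hw1, hT, hT, if_pos hw2, hw1]
      by_cases h : β.ℓ x = β.ℓ y
      · rw [if_pos h, if_pos h, if_pos]
        rw [hw2]
        exact hbs3 _ _ (β.lab x y h)
      · rw [if_neg h, if_neg h, mul_zero]
    · intro z hz
      rw [ent_star, ent_Φ, hT]
      by_cases h : β.ℓ z = β.ℓ x
      · rw [if_pos h, if_neg, map_zero, zero_mul]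
        intro h'
        exact hz (β.inj _ _ (h.trans hw1.symm) (h'.trans hw2.symm))
      · rw [if_neg h, map_zero, zero_mul]
  simp only [key]
  by_cases h : β.ℓ x = β.ℓ y
  · simp only [if_pos h]
    rw [ent_eq_inner, inner_star_mul]
    exact hc (p, ⟨_, x, rfl⟩) (q, ⟨_, y, rfl⟩)
  · simp only [if_neg h, Finset.sum_const_zero]

end Blk

end Pool.Agent.H562Z.Roe
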