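import Pool.Agent.H562Z.Roe.Block

/-!
# A criterion for the nuclear dimension of a uniform Roe algebra
-/

set_option autoImplicit false
set_option linter.unusedSectionVars false
set_option linter.unusedSimpArgs false
set_option linter.deprecated false
set_option linter.style.haveILetI false

namespace Pool.Agent.H562Z.Roe

open scoped InnerProductSpace ComplexConjugate CStarAlgebra
open Pool.Agent.H812R3.KP (B dl ent ent_eq_inner ent_star ent_mul hasSum_apply ent_ext ent_add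
  ent_sub ent_smul ent_zero ent_sum ent_one norm_ent_le norm_sq_eq summable_sq mem_of_summable
  perm ent_perm_mul ent_mul_perm dl_apply inner_dl cmp amp ent_cmp ent_amp)
open Pool.Agent.H562Z.Cone (Gram gram_decomp inner_star_mul norm_one_le')

variable {X : Type}

theorem net {J Y : Type} [Fintype Y] (D : J → (Y → ℂ)) (C : ℝ) (hC : ∀ j, ‖D j‖ ≤ C) (ε : ℝ)
    (hε : 0 < ε) : ∃ (T : Type) (_ : Fintype T) (cl : J → T),
      ∀ j j', cl j = cl j' → ∀ y, ‖D j y - D j' y‖ ≤ ε := by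
  obtain ⟨t, -, ht, hc⟩ := finite_cover_balls_of_compact
    (isCompact_closedBall (0 : Y → ℂ) C) (half_pos hε)
  have h : ∀ j, ∃ z : t, D j ∈ Metric.ball z.1 (ε / 2) := by
    intro j
    have := hc (mem_closedBall_zero_iff.2 (hC j))
    simp only [Set.mem_iUnion] at this
    obtain ⟨z, hz, h⟩ := this
    exact ⟨⟨z, hz⟩, h⟩
  choose cl hcl using h
  refine ⟨t, ht.fintype, cl, fun j j' hj y => ?_⟩
  have h1 := hcl j
  have h2 := hcl j'
  rw [hj] at h1
  have h3 : dist (D j) (D j') ≤ ε := by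
    have := dist_triangle_right (D j) (D j') (cl j').1
    rw [Metric.mem_ball] at h1 h2
    linarith
  rw [← dist_eq_norm]
  exact (dist_le_pi_dist _ _ y).trans h3

theorem exists_enum [Nonempty X] {Λ : Type} (ℓ : X → Λ) (s : Λ → Finset X)
    (hs : ∀ l x, x ∈ s l ↔ ℓ x = l) : ∃ (idx : X → ℕ) (en : Λ → ℕ → X),
      (∀ x, en (ℓ x) (idx x) = x) ∧ (∀ x, idx x < (s (ℓ x)).card) ∧
      ∀ l i, i < (s l).card → ℓ (en l i) = l ∧ idx (en l i) = i := by
  classical
  let en : Λ → ℕ → X := fun l i =>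
    if h : i < (s l).card then ((s l).equivFin.symm ⟨i, h⟩ : X) else Classical.arbitrary X
  have h1 : ∀ l i, i < (s l).card → ℓ (en l i) = l := by
    intro l i h
    simp only [en, dif_pos h]
    exact (hs _ _).1 ((s l).equivFin.symm ⟨i, h⟩).2
  have h2 : ∀ l i j, i < (s l).card → j < (s l).card → en l i = en l j → i = j := by
    intro l i j hi hj h
    simp only [en, dif_pos hi, dif_pos hj] at h
    have := (s l).equivFin.symm.injective (Subtype.ext h)
    exact congrArg Fin.val this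
  have h3 : ∀ x, ∃ i, i < (s (ℓ x)).card ∧ en (ℓ x) i = x := by
    intro x
    let j := (s (ℓ x)).equivFin ⟨x, (hs _ _).2 rfl⟩
    refine ⟨j, j.2, ?_⟩
    simp only [en, dif_pos j.2]
    simp [j]
  choose idx hi1 hi2 using h3
  refine ⟨idx, en, hi2, hi1, fun l i h => ⟨h1 l i h, ?_⟩⟩
  have a1 := hi1 (en l i)
  have a2 := hi2 (en l i)
  rw [h1 l i h] at a1 a2
  exact h2 l _ _ a1 h a2

theorem exists_blk [Nonempty X] {Λ : Type} (ℓ : X → Λ) (s : Λ → Finset X)
    (hs : ∀ l x, x ∈ s l ↔ ℓ x = l) (N : ℕ) (hN : ∀ l, (s l).card ≤ N) (G : Finset (B X))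
    (η : ℝ) (hη : 0 < η) : ∃ β : Blk X, (∀ x y, β.ℓ x = β.ℓ y ↔ ℓ x = ℓ y) ∧
      ∀ b ∈ G, ∀ x y, ℓ x = ℓ y → ‖ent b (β.ρ x) (β.ρ y) - ent b x y‖ ≤ η := by
  classical
  obtain ⟨idx, en, h1, h2, h3⟩ := exists_enum ℓ s hs
  obtain ⟨T, _, cl, hcl⟩ := net (J := Λ) (Y := G × Fin N × Fin N)
    (fun l z => ent z.1.1 (en l z.2.1) (en l z.2.2)) (∑ b ∈ G, ‖b‖) (by
      intro l
      refine (pi_norm_le_iff_of_nonneg (by positivity)).2 fun z => ?_
      exact (norm_ent_le _ _ _).trans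
        (Finset.single_le_sum (f := fun b : B X => ‖b‖) (fun _ _ => norm_nonneg _) z.1.2)) η hη
  let κ : Λ → Fin (N + 1) × T := fun l => (⟨(s l).card, Nat.lt_succ_of_le (hN l)⟩, cl l)
  haveI : Nonempty Λ := ⟨ℓ (Classical.arbitrary X)⟩
  let rep : Λ → Λ := fun l => Function.invFun κ (κ l)
  have r1 : ∀ l, κ (rep l) = κ l := fun l => Function.invFun_eq ⟨l, rfl⟩
  have r2 : ∀ l, rep (rep l) = rep l := fun l => by simp only [rep, r1 l]
  have r3 : ∀ l, (s (rep l)).card = (s l).card := fun l => congrArg (fun z => z.1.1) (r1 l)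
  have r4 : ∀ l, cl (rep l) = cl l := fun l => congrArg (fun z => z.2) (r1 l)
  let ρ : X → X := fun x => en (rep (ℓ x)) (idx x)
  have p1 : ∀ x, ℓ (ρ x) = rep (ℓ x) := fun x => (h3 _ _ ((r3 _).symm ▸ h2 x)).1
  have p2 : ∀ x, idx (ρ x) = idx x := fun x => (h3 _ _ ((r3 _).symm ▸ h2 x)).2
  refine ⟨⟨Λ, ℓ, ρ, ?_, ?_, ?_, ?_, ?_⟩, fun _ _ => Iff.rfl, ?_⟩
  · intro x
    change en (rep (ℓ (ρ x))) (idx (ρ x)) = ρ x
    rw [p1, p2, r2]
  · intro x y h
    rw [p1, p1, h]
  · intro x y h h'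
    have : idx x = idx y := by rw [← p2 x, ← p2 y, h']
    rw [← h1 x, ← h1 y, h, this]
  · intro x z h
    rw [p1] at h
    have a1 : idx z < (s (ℓ x)).card := by
      rw [← r3, ← h]; exact h2 z
    obtain ⟨a2, a3⟩ := h3 _ _ a1
    refine ⟨en (ℓ x) (idx z), a2, ?_⟩
    change en (rep (ℓ (en (ℓ x) (idx z)))) (idx (en (ℓ x) (idx z))) = z
    rw [a2, a3, ← h, h1]
  · refine (Set.finite_range fun z : (Fin (N + 1) × T) × Fin N =>
      en (Function.invFun κ z.1) z.2).subset ?_
    rintro _ ⟨x, rfl⟩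
    exact ⟨(κ (ℓ x), ⟨idx x, (h2 x).trans_le (hN _)⟩), rfl⟩
  · intro b hb x y h
    have := hcl _ _ (r4 (ℓ x)) (⟨b, hb⟩, ⟨idx x, (h2 x).trans_le (hN _)⟩,
      ⟨idx y, (h2 y).trans_le (hN _)⟩)
    simp only at this
    rw [h1 x] at this
    have e : en (ℓ x) (idx y) = y := by rw [h, h1]
    rw [e] at this
    change ‖ent b (en (rep (ℓ x)) (idx x)) (en (rep (ℓ y)) (idx y)) - ent b x y‖ ≤ η
    rw [← h]
    exact this

/-- block diagonal part -/
noncomputable def Ex {Λ : Type} (ℓ : X → Λ) : B X →L[ℂ] B X :=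
  (cmp (fun x => (x, ℓ x)) (fun _ _ h => congrArg Prod.fst h)).comp (amp (Equiv.refl (X × Λ)))

open Classical in
theorem ent_Ex {Λ : Type} (ℓ : X → Λ) (T : B X) (x y : X) :
    ent (Ex ℓ T) x y = if ℓ x = ℓ y then ent T x y else 0 := by
  rw [Ex, ContinuousLinearMap.comp_apply, ent_cmp]
  exact ent_amp (Equiv.refl (X × Λ)) T _ _ _ _

section Roe

variable [MetricSpace X]

/-- the inclusion of the Roe algebra -/
def rval (T : Roe X) : B X := T.1

theorem rval_mul (S T : Roe X) : rval (S * T) = rval S * rval T := rfl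
theorem rval_add (S T : Roe X) : rval (S + T) = rval S + rval T := rfl
theorem rval_sub (S T : Roe X) : rval (S - T) = rval S - rval T := rfl
theorem rval_smul (c : ℂ) (T : Roe X) : rval (c • T) = c • rval T := rfl
theorem rval_star (T : Roe X) : rval (star T) = star (rval T) := rfl
theorem rval_zero : rval (0 : Roe X) = 0 := rfl
theorem norm_rval (T : Roe X) : ‖rval T‖ = ‖T‖ := rfl
theorem rval_inj {S T : Roe X} (h : rval S = rval T) : S = T := Subtype.ext h
theorem rval_mem (T : Roe X) : rval T ∈ closure (FinProp X) := by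
  rw [← roeSub_coe]; exact T.2

theorem rval_sum {ι : Type} (s : Finset ι) (T : ι → Roe X) :
    rval (∑ i ∈ s, T i) = ∑ i ∈ s, rval (T i) := by
  classical
  induction s using Finset.induction_on with
  | empty => rfl
  | insert a s ha ih => rw [Finset.sum_insert ha, Finset.sum_insert ha, rval_add, ih]

/-- an element of the Roe algebra -/
def rmk (T : B X) (h : T ∈ FPalg X) : Roe X := ⟨T, fp_mem_roe h⟩

theorem rval_rmk (T : B X) (h : T ∈ FPalg X) : rval (rmk T h) = T := rfl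

theorem Blk.val_fp (β : Blk X) (M : ℝ) (hM : ∀ x y, β.ℓ x = β.ℓ y → dist x y ≤ M) (T : β.Fd) :
    β.val T ∈ FPalg X :=
  mem_finProp.2 ⟨M, fun x y h => β.fix_zero (β.val_fix T) fun h' => absurd (hM x y h') (not_le.2 h)⟩

theorem norm_conj_le (U T : B X) (hU : ‖U‖ ≤ 1) : ‖U * T * star U‖ ≤ ‖T‖ := by
  calc ‖U * T * star U‖ ≤ ‖U‖ * ‖T‖ * ‖star U‖ :=
        (norm_mul_le _ _).trans (mul_le_mul_of_nonneg_right (norm_mul_le _ _) (norm_nonneg _))
    _ ≤ 1 * ‖T‖ * 1 := by
        rw [norm_star U]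
        gcongr
    _ = ‖T‖ := by ring

theorem norm_conj_le' (U T : B X) (hU : ‖U‖ ≤ 1) : ‖star U * T * U‖ ≤ ‖T‖ := by
  have := norm_conj_le (star U) T ((norm_star U).trans_le hU)
  rwa [star_star] at this

theorem crit1 [PartialOrder (Roe X)] [StarOrderedRing (Roe X)] (n : ℕ)
    (h : ∀ (G : Finset (B X)), (∀ a ∈ G, a ∈ FPalg X) → ∀ ε : ℝ, 0 < ε →
      ∃ (β : Fin (n + 1) → Blk X) (W U : Fin (n + 1) → B X) (M : ℝ),
        (∀ i, ‖W i‖ ≤ 1) ∧ (∀ i, U i ∈ FPalg X) ∧ (∀ i, star (U i) * U i = 1) ∧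
        (∀ i x y, (β i).ℓ x = (β i).ℓ y → dist x y ≤ M) ∧
        ∀ a ∈ G, ‖∑ i, U i * (β i).Φ (star (W i) * a * W i) * star (U i) - a‖ ≤ ε) :
    NucDimLE (Roe X) n := by
  classical
  intro 𝓕 ε hε
  set δ : ℝ := ε / (2 * (n + 3)) with hδ
  have hδ0 : 0 < δ := by positivity
  have hap : ∀ a : Roe X, ∃ b ∈ FinProp X, dist (rval a) b < δ := fun a =>
    Metric.mem_closure_iff.1 (rval_mem a) δ hδ0
  choose ap hap1 hap2 using hap
  obtain ⟨β, W, U, M, hW, hU, hUU, hM, hG⟩ := h (𝓕.image ap) (by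
    intro b hb
    obtain ⟨a, -, rfl⟩ := Finset.mem_image.1 hb
    exact hap1 a) δ hδ0
  have hU1 : ∀ i, ‖U i‖ ≤ 1 := fun i => norm_le_one_of_isom (hUU i)
  let ψ : Roe X →ₗ[ℂ] (Π i, (β i).Fd) :=
    { toFun := fun a i => (β i).fold (star (W i) * rval a * W i)
      map_add' := fun a b => by
        funext i
        apply (β i).val_inj
        rw [Pi.add_apply, Blk.val_add, Blk.val_fold, Blk.val_fold, Blk.val_fold, rval_add, mul_add,
          add_mul, map_add]
      map_smul' := fun c a => by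
        funext i
        apply (β i).val_inj
        rw [RingHom.id_apply, Pi.smul_apply, Blk.val_smul, Blk.val_fold, Blk.val_fold, rval_smul,
          mul_smul_comm, smul_mul_assoc, map_smul] }
  have hψ : ∀ a i, ψ a i = (β i).fold (star (W i) * rval a * W i) := fun _ _ => rfl
  have hm : ∀ i (x : (β i).Fd), U i * (β i).val x * star (U i) ∈ FPalg X := fun i x =>
    mul_mem (mul_mem (hU i) ((β i).val_fp M (hM i) x)) (star_mem (hU i))
  let φ : (Π i, (β i).Fd) →ₗ[ℂ] Roe X :=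
    { toFun := fun x => ∑ i, rmk _ (hm i (x i))
      map_add' := fun a b => by
        apply rval_inj
        rw [rval_add, rval_sum, rval_sum, rval_sum, ← Finset.sum_add_distrib]
        refine Finset.sum_congr rfl fun i _ => ?_
        rw [rval_rmk, rval_rmk, rval_rmk, Pi.add_apply, Blk.val_add, mul_add, add_mul]
      map_smul' := fun c a => by
        apply rval_inj
        rw [RingHom.id_apply, rval_smul, rval_sum, rval_sum, Finset.smul_sum]
        refine Finset.sum_congr rfl fun i _ => ?_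
        rw [rval_rmk, rval_rmk, Pi.smul_apply, Blk.val_smul, mul_smul_comm, smul_mul_assoc] }
  have hφ : ∀ x, rval (φ x) = ∑ i, U i * (β i).val (x i) * star (U i) := fun x => by
    change rval (∑ i, rmk _ (hm i (x i))) = _
    rw [rval_sum]
    rfl
  have hφ1 : ∀ i (x : (β i).Fd), rval (φ (Pi.single i x)) = U i * (β i).val x * star (U i) := by
    intro i x
    rw [hφ, Finset.sum_eq_single i, Pi.single_eq_same]
    · intro j _ hj
      rw [Pi.single_eq_of_ne hj, Blk.val_zero, mul_zero, zero_mul]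
    · simp
  have g1 : Gram ψ := by
    intro k a
    choose m b hb using fun i => (β i).gram_Φ (fun p => rval (a p) * W i)
    refine ⟨Σ i, Fin (m i), inferInstance, fun z p => Pi.single z.1 (b z.1 z.2 p), fun p q => ?_⟩
    funext i
    rw [hψ, Fintype.sum_sigma, Finset.sum_apply, Finset.sum_eq_single i]
    · rw [Finset.sum_apply]
      simp only [Pi.mul_apply, Pi.star_apply, Pi.single_eq_same]
      rw [← hb, rval_mul, rval_star, star_mul]
      simp only [mul_assoc]
    · intro j _ hj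
      rw [Finset.sum_apply]
      refine Finset.sum_eq_zero fun z _ => ?_
      simp only [Pi.mul_apply, Pi.single_eq_of_ne (Ne.symm hj), mul_zero]
    · simp
  have g2 : Gram φ := by
    intro k a
    refine ⟨Fin (n + 1), inferInstance, fun i p => rmk ((β i).val (a p i) * star (U i))
      (mul_mem ((β i).val_fp M (hM i) _) (star_mem (hU i))), fun p q => ?_⟩
    apply rval_inj
    rw [hφ, rval_sum]
    refine Finset.sum_congr rfl fun i _ => ?_
    rw [rval_mul, rval_star, rval_rmk, rval_rmk, Pi.mul_apply, Pi.star_apply, Blk.val_mul,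
      Blk.val_star, star_mul, star_star]
    simp only [mul_assoc]
  letI : PartialOrder (Π i, (β i).Fd) := CStarAlgebra.spectralOrder _
  haveI : StarOrderedRing (Π i, (β i).Fd) := CStarAlgebra.spectralOrderedRing _
  refine ⟨fun i => (β i).Fd, inferInstance, inferInstance, inferInstance, inferInstance,
    g1.cp, g2.cp, fun a => ?_, fun i x => ?_, fun i x y _ _ hxy => ?_, fun a ha => ?_⟩
  · rw [Gram.cp_apply]
    refine (pi_norm_le_iff_of_nonneg (norm_nonneg _)).2 fun i => ?_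
    rw [hψ, ← Blk.norm_val, Blk.val_fold, ← norm_rval]
    exact ((β i).norm_Φ_le _).trans (norm_conj_le' _ _ (hW i))
  · rw [Gram.cp_apply, ← norm_rval, hφ1, ← Blk.norm_val]
    exact norm_conj_le _ _ (hU1 i)
  · rw [Gram.cp_apply, Gram.cp_apply]
    apply rval_inj
    rw [rval_mul, hφ1, hφ1, rval_zero]
    calc U i * (β i).val x * star (U i) * (U i * (β i).val y * star (U i))
        = U i * ((β i).val x * (star (U i) * U i) * (β i).val y) * star (U i) := by
          simp only [mul_assoc]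
      _ = 0 := by rw [hUU, mul_one, ← Blk.val_mul, hxy, Blk.val_zero, mul_zero, zero_mul]
  · rw [Gram.cp_apply, Gram.cp_apply, ← norm_rval, rval_sub, hφ]
    simp only [hψ, Blk.val_fold]
    have e1 := hG (ap a) (Finset.mem_image_of_mem _ ha)
    have e2 : ‖rval a - ap a‖ < δ := by rw [← dist_eq_norm]; exact hap2 a
    have e3 : ∑ i, U i * (β i).Φ (star (W i) * rval a * W i) * star (U i) - rval a =
        (∑ i, U i * (β i).Φ (star (W i) * ap a * W i) * star (U i) - ap a) +
        ∑ i, U i * (β i).Φ (star (W i) * (rval a - ap a) * W i) * star (U i) - (rval a - ap a) := by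
      simp only [mul_sub, sub_mul, map_sub, Finset.sum_sub_distrib]
      abel
    have e4 : ‖∑ i, U i * (β i).Φ (star (W i) * (rval a - ap a) * W i) * star (U i)‖ ≤
        (n + 1) * δ := by
      refine (norm_sum_le _ _).trans ?_
      calc _ ≤ ∑ _i : Fin (n + 1), δ := Finset.sum_le_sum fun i _ =>
            (norm_conj_le _ _ (hU1 i)).trans (((β i).norm_Φ_le _).trans
              ((norm_conj_le' _ _ (hW i)).trans e2.le))
        _ = (n + 1) * δ := by simp
    rw [e3]
    calc _ ≤ δ + (n + 1) * δ + δ := by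
          refine (norm_sub_le _ _).trans (add_le_add ((norm_add_le _ _).trans
            (add_le_add e1 e4)) e2.le)
      _ = ε / 2 := by rw [hδ]; field_simp; ring
      _ < ε := half_lt_self hε

theorem ball_finset (hX : BoundedGeometry X) (r : ℝ) : ∃ (N : ℕ) (s : X → Finset X),
    (∀ x, (s x).card ≤ N) ∧ ∀ x y, y ∈ s x ↔ dist x y ≤ r := by
  classical
  obtain ⟨N, hN⟩ := hX (|r| + 1) (by positivity)
  have hf : ∀ x, (Metric.ball x (|r| + 1)).Finite := fun x => Set.finite_of_encard_le_coe (hN x)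
  refine ⟨N, fun x => (hf x).toFinset.filter fun y => dist x y ≤ r, fun x => ?_, fun x y => ?_⟩
  · refine (Finset.card_filter_le _ _).trans ?_
    have := hN x
    rw [(hf x).encard_eq_coe_toFinset_card] at this
    exact_mod_cast this
  · rw [Finset.mem_filter, Set.Finite.mem_toFinset, Metric.mem_ball, dist_comm y x]
    exact ⟨fun h => h.2, fun h => ⟨by linarith [le_abs_self r], h⟩⟩

theorem crit2 [Nonempty X] (hX : BoundedGeometry X) [PartialOrder (Roe X)]
    [StarOrderedRing (Roe X)] (n : ℕ)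
    (h : ∀ (G : Finset (B X)), (∀ a ∈ G, a ∈ FPalg X) → ∀ ε : ℝ, 0 < ε →
      ∃ (Λ : Type) (ℓ : Fin (n + 1) → X → Λ) (W U : Fin (n + 1) → B X) (M : ℝ),
        (∀ i, ‖W i‖ ≤ 1) ∧ (∀ i, U i ∈ FPalg X) ∧ (∀ i, star (U i) * U i = 1) ∧
        (∀ i x y, ℓ i x = ℓ i y → dist x y ≤ M) ∧
        ∀ a ∈ G, ‖∑ i, U i * Ex (ℓ i) (star (W i) * a * W i) * star (U i) - a‖ ≤ ε) :
    NucDimLE (Roe X) n := by
  classical
  refine crit1 n fun G hG ε hε => ?_
  obtain ⟨Λ, ℓ, W, U, M, hW, hU, hUU, hM, hA⟩ := h G hG (ε / 2) (half_pos hε)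
  obtain ⟨N, s, hs1, hs2⟩ := ball_finset hX M
  set η : ℝ := ε / (2 * (n + 1) * (N + 1)) with hη
  have hη0 : 0 < η := by positivity
  have hb : ∀ i, ∃ β : Blk X, (∀ x y, β.ℓ x = β.ℓ y ↔ ℓ i x = ℓ i y) ∧
      ∀ b ∈ G.image (fun a => star (W i) * a * W i), ∀ x y, ℓ i x = ℓ i y →
        ‖ent b (β.ρ x) (β.ρ y) - ent b x y‖ ≤ η := by
    intro i
    refine exists_blk (ℓ i) (fun l => (s (Function.invFun (ℓ i) l)).filter fun x => ℓ i x = l)
      (fun l x => ?_) N (fun l => (Finset.card_filter_le _ _).trans (hs1 _)) _ η hη0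
    rw [Finset.mem_filter]
    refine ⟨fun h => h.2, fun h => ⟨(hs2 _ _).2 (hM i _ _ ?_), h⟩⟩
    rw [h]
    exact Function.invFun_eq ⟨x, h⟩
  choose β hβ1 hβ2 using hb
  refine ⟨β, W, U, M, hW, hU, hUU, fun i x y h => hM i x y ((hβ1 i x y).1 h), fun a ha => ?_⟩
  have e1 : ∀ i, ‖(β i).Φ (star (W i) * a * W i) - Ex (ℓ i) (star (W i) * a * W i)‖ ≤ N * η := by
    intro i
    refine schur _ N η hη0.le s hs1 (fun x y h => ?_) (fun x y => ?_)
    · have : ℓ i x = ℓ i y := by
        by_contra h'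
        apply h
        rw [ent_sub, Blk.ent_Φ, ent_Ex, if_neg h', if_neg (fun h'' => h' ((hβ1 i x y).1 h'')),
          sub_zero]
      exact ⟨(hs2 _ _).2 (hM i _ _ this), (hs2 _ _).2 (hM i _ _ this.symm)⟩
    · rw [ent_sub, Blk.ent_Φ, ent_Ex]
      by_cases h' : ℓ i x = ℓ i y
      · rw [if_pos h', if_pos ((hβ1 i x y).2 h')]
        exact hβ2 i _ (Finset.mem_image_of_mem _ ha) x y h'
      · rw [if_neg h', if_neg (fun h'' => h' ((hβ1 i x y).1 h'')), sub_zero, norm_zero]
        exact hη0.le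
  have e3 : ∑ i, U i * (β i).Φ (star (W i) * a * W i) * star (U i) - a =
      (∑ i, U i * Ex (ℓ i) (star (W i) * a * W i) * star (U i) - a) +
      ∑ i, U i * ((β i).Φ (star (W i) * a * W i) - Ex (ℓ i) (star (W i) * a * W i)) *
        star (U i) := by
    simp only [mul_sub, sub_mul, Finset.sum_sub_distrib]
    abel
  have e4 : ‖∑ i, U i * ((β i).Φ (star (W i) * a * W i) - Ex (ℓ i) (star (W i) * a * W i)) *
        star (U i)‖ ≤ (n + 1) * (N * η) := by
    refine (norm_sum_le _ _).trans ?_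
    calc _ ≤ ∑ _i : Fin (n + 1), N * η := Finset.sum_le_sum fun i _ =>
          (norm_conj_le _ _ (norm_le_one_of_isom (hUU i))).trans (e1 i)
      _ = (n + 1) * (N * η) := by simp
  have e5 : (n + 1) * (N * η) ≤ ε / 2 := by
    have : (n + 1) * ((N + 1) * η) = ε / 2 := by rw [hη]; field_simp
    rw [← this]
    gcongr
    linarith
  rw [e3]
  refine (norm_add_le _ _).trans ?_
  linarith [hA a ha]

end Roe

end Pool.Agent.H562Z.Roe
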