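import Pool.Agent.H562Z.Roe.Stmt

/-!
# Working copies (reducible `ℓ²`) of the operator definitions
-/

set_option autoImplicit false

namespace Pool.Agent.H562Z.Roe

open scoped CStarAlgebra InnerProductSpace

/-- the Hilbert space `ℓ²(X)` -/
noncomputable abbrev L2 (X : Type) : Type := lp (fun _ : X => ℂ) 2

open Classical in
/-- the basis vector `δ_x` -/
noncomputable def delta {X : Type} (x : X) : L2 X := lp.single 2 x (1 : ℂ)

/-- bounded operators of finite propagation -/
def FinProp (X : Type) [MetricSpace X] : Set (L2 X →L[ℂ] L2 X) :=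
  {T | ∃ R : ℝ, ∀ x y : X, R < dist x y → ⟪delta x, T (delta y)⟫_ℂ = 0}

/-- the uniform Roe algebra as a subalgebra of `B(ℓ²(X))`: the norm closure of the star algebra
of finite propagation operators -/
noncomputable def roeSub (X : Type) [MetricSpace X] : StarSubalgebra ℂ (L2 X →L[ℂ] L2 X) :=
  (StarAlgebra.adjoin ℂ (FinProp X)).topologicalClosure

/-- the uniform Roe algebra `C*_u(X)` -/
def Roe (X : Type) [MetricSpace X] : Type := roeSub X

noncomputable instance (X : Type) [MetricSpace X] : CStarAlgebra (Roe X) :=
  StarSubalgebra.cstarAlgebra (roeSub X) (h_closed := StarSubalgebra.isClosed_topologicalClosure _)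

end Pool.Agent.H562Z.Roe
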