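import Mathlib

/-!
# The brick wall geometry in `ℤ²`
-/

set_option autoImplicit false
set_option linter.unusedSectionVars false
set_option linter.unusedSimpArgs false
set_option linter.deprecated false

namespace Pool.Agent.H562Z.Roe

/-- parameters of the brick wall -/
structure Geo where
  L : ℤ
  K : ℤ
  Λ : ℤ
  t : ℤ × ℤ → ℤ
  t' : ℤ × ℤ → ℤ
  hL : 0 < L
  hΛ : Λ = 2 * K
  h1 : ∀ e, 20 * L ≤ t e
  h2 : ∀ e, t e + 20 * L ≤ t' e
  h3 : ∀ e, t' e + 20 * L ≤ Λ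

namespace Geo

variable (g : Geo)

theorem K_ge : 30 * g.L ≤ g.K := by
  have := g.h1 0; have := g.h2 0; have := g.h3 0; have := g.hΛ
  omega

theorem Λ_pos : 0 < g.Λ := by
  have := g.K_ge; have := g.hΛ; have := g.hL
  omega

theorem step {a b : ℤ} (h : a < b) : g.Λ * a + g.Λ ≤ g.Λ * b := by
  have := g.Λ_pos
  nlinarith

theorem mono {a b : ℤ} (c : ℤ) (h : a ≤ b + c) : g.Λ * a ≤ g.Λ * b + g.Λ * c := by
  have := g.Λ_pos
  nlinarith

theorem uniq {a i j : ℤ} (h1 : g.Λ * i ≤ a) (h2 : a < g.Λ * i + g.Λ) (h3 : g.Λ * j ≤ a)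
    (h4 : a < g.Λ * j + g.Λ) : i = j := by
  rcases lt_trichotomy i j with h | h | h
  · have := g.step h; omega
  · exact h
  · have := g.step h; omega

/-- column index -/
def n (x : ℤ × ℤ) : ℤ := x.1 / g.Λ
/-- row index -/
def k (x : ℤ × ℤ) : ℤ := x.2 / g.Λ
/-- index of the nearest horizontal line -/
def r (x : ℤ × ℤ) : ℤ := (x.2 + g.K) / g.Λ

theorem dv (a : ℤ) : g.Λ * (a / g.Λ) ≤ a ∧ a < g.Λ * (a / g.Λ) + g.Λ := by
  have h := g.Λ_pos
  have h1 := Int.emod_add_mul_ediv a g.Λ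
  have h2 := Int.emod_nonneg a h.ne'
  have h3 := Int.emod_lt_of_pos a h
  omega

theorem n_spec (x : ℤ × ℤ) : g.Λ * g.n x ≤ x.1 ∧ x.1 < g.Λ * g.n x + g.Λ := g.dv _
theorem k_spec (x : ℤ × ℤ) : g.Λ * g.k x ≤ x.2 ∧ x.2 < g.Λ * g.k x + g.Λ := g.dv _
theorem r_spec (x : ℤ × ℤ) : g.Λ * g.r x ≤ x.2 + g.K ∧ x.2 + g.K < g.Λ * g.r x + g.Λ := g.dv _

theorem n_eq {x : ℤ × ℤ} {i : ℤ} (h1 : g.Λ * i ≤ x.1) (h2 : x.1 < g.Λ * i + g.Λ) : g.n x = i :=
  g.uniq (g.n_spec x).1 (g.n_spec x).2 h1 h2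
theorem k_eq {x : ℤ × ℤ} {i : ℤ} (h1 : g.Λ * i ≤ x.2) (h2 : x.2 < g.Λ * i + g.Λ) : g.k x = i :=
  g.uniq (g.k_spec x).1 (g.k_spec x).2 h1 h2
theorem r_eq {x : ℤ × ℤ} {i : ℤ} (h1 : g.Λ * i ≤ x.2 + g.K) (h2 : x.2 + g.K < g.Λ * i + g.Λ) :
    g.r x = i :=
  g.uniq (g.r_spec x).1 (g.r_spec x).2 h1 h2

/-- bump function of a rectangle -/
def rect (a b c d : ℤ) (x : ℤ × ℤ) : ℤ :=
  max 0 (min g.L (min (min (x.1 - a) (b - x.1)) (min (x.2 - c) (d - x.2))))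

/-- bump of a brick -/
def hB (e x : ℤ × ℤ) : ℤ :=
  if (e.1 - e.2) % 2 = 0 then g.rect (g.Λ * e.1 + 3 * g.L) (g.Λ * e.1 + 2 * g.Λ - 3 * g.L)
    (g.Λ * e.2 + 3 * g.L) (g.Λ * e.2 + g.Λ - 3 * g.L) x else 0
/-- bump of a gap -/
def hG (e x : ℤ × ℤ) : ℤ :=
  g.rect (g.Λ * e.1 + g.t e - 5 * g.L) (g.Λ * e.1 + g.t e + 5 * g.L)
    (g.Λ * e.2 - 5 * g.L) (g.Λ * e.2 + 5 * g.L) x
/-- bump of a room -/
def hR (e x : ℤ × ℤ) : ℤ :=
  g.rect (g.Λ * e.1 + g.t' e - 5 * g.L) (g.Λ * e.1 + g.t' e + 5 * g.L)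
    (g.Λ * e.2 - 2 * g.L) (g.Λ * e.2 + 2 * g.L) x
/-- combined bump -/
def hh (e x : ℤ × ℤ) : ℤ := max (g.hB e x) (max (g.hG e x) (g.hR e x))

theorem rect_le (a b c d : ℤ) (x : ℤ × ℤ) : 0 ≤ g.rect a b c d x ∧ g.rect a b c d x ≤ g.L := by
  have := g.hL
  unfold rect
  omega

theorem hh_le (e x : ℤ × ℤ) : 0 ≤ g.hh e x ∧ g.hh e x ≤ g.L := by
  have := g.hL
  have h1 : g.hB e x ≤ g.L := by
    unfold hB
    split_ifs
    · exact (g.rect_le _ _ _ _ _).2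
    · omega
  have h2 : 0 ≤ g.hG e x ∧ g.hG e x ≤ g.L := g.rect_le _ _ _ _ _
  have h3 : 0 ≤ g.hR e x ∧ g.hR e x ≤ g.L := g.rect_le _ _ _ _ _
  unfold hh
  omega

theorem exists_H (x : ℤ × ℤ) : ∃ m, (∃ e, m = g.hh e x) ∧ ∀ e, g.hh e x ≤ m := by
  obtain ⟨m, h1, h2⟩ := Int.exists_greatest_of_bdd (P := fun m => ∃ e, m = g.hh e x)
    ⟨g.L, by rintro _ ⟨e, rfl⟩; exact (g.hh_le e x).2⟩ ⟨_, 0, rfl⟩
  exact ⟨m, h1, fun e => h2 _ ⟨e, rfl⟩⟩

/-- the weight -/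
noncomputable def H (x : ℤ × ℤ) : ℤ := (g.exists_H x).choose

theorem H_att (x : ℤ × ℤ) : ∃ e, g.H x = g.hh e x := (g.exists_H x).choose_spec.1
theorem le_H (e x : ℤ × ℤ) : g.hh e x ≤ g.H x := (g.exists_H x).choose_spec.2 e

theorem H_le (x : ℤ × ℤ) : 0 ≤ g.H x ∧ g.H x ≤ g.L := by
  obtain ⟨e, he⟩ := g.H_att x
  rw [he]
  exact g.hh_le e x

/-- closeness in the maximum norm -/
def Cl (R : ℤ) (x y : ℤ × ℤ) : Prop :=
  x.1 ≤ y.1 + R ∧ y.1 ≤ x.1 + R ∧ x.2 ≤ y.2 + R ∧ y.2 ≤ x.2 + R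

theorem Cl.symm {R : ℤ} {x y : ℤ × ℤ} (h : Cl R x y) : Cl R y x :=
  ⟨h.2.1, h.1, h.2.2.2, h.2.2.1⟩

theorem Cl.mono {R S : ℤ} {x y : ℤ × ℤ} (h : Cl R x y) (hS : R ≤ S) : Cl S x y := by
  unfold Cl at *
  omega

theorem rect_lip {R : ℤ} {x y : ℤ × ℤ} (h : Cl R x y) (a b c d : ℤ) :
    g.rect a b c d x ≤ g.rect a b c d y + R := by
  unfold Cl at h
  unfold rect
  omega

theorem H_lip {R : ℤ} {x y : ℤ × ℤ} (h : Cl R x y) : g.H x ≤ g.H y + R := by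
  obtain ⟨e, he⟩ := g.H_att x
  have h0 := g.le_H e y
  have h1 : g.hB e x ≤ g.hB e y + R := by
    unfold hB
    split_ifs
    · exact g.rect_lip h _ _ _ _
    · unfold Cl at h; omega
  have h2 : g.hG e x ≤ g.hG e y + R := g.rect_lip h _ _ _ _
  have h3 : g.hR e x ≤ g.hR e y + R := g.rect_lip h _ _ _ _
  unfold hh at he h0
  omega

/-- main box -/
def Mb (e x : ℤ × ℤ) : Prop :=
  g.Λ * e.1 + g.t e - 5 * g.L < x.1 ∧ x.1 < g.Λ * e.1 + g.t e + 5 * g.L ∧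
    g.Λ * e.2 - 2 * g.L < x.2 ∧ x.2 < g.Λ * e.2 + 2 * g.L
/-- room box -/
def Rb (e x : ℤ × ℤ) : Prop :=
  g.Λ * e.1 + g.t' e - 5 * g.L < x.1 ∧ x.1 < g.Λ * e.1 + g.t' e + 5 * g.L ∧
    g.Λ * e.2 - 2 * g.L < x.2 ∧ x.2 < g.Λ * e.2 + 2 * g.L
/-- outside of all boxes -/
def Out (x : ℤ × ℤ) : Prop := ∀ e, ¬ g.Mb e x ∧ ¬ g.Rb e x

/-- the nearest edge -/
def E (x : ℤ × ℤ) : ℤ × ℤ := (g.n x, g.r x)

/-- a wide neighbourhood of the middle of an edge -/
def Nr (e x : ℤ × ℤ) : Prop :=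
  g.Λ * e.1 + 10 * g.L ≤ x.1 ∧ x.1 + 10 * g.L ≤ g.Λ * e.1 + g.Λ ∧
    g.Λ * e.2 - 10 * g.L ≤ x.2 ∧ x.2 ≤ g.Λ * e.2 + 10 * g.L

theorem Nr.E_eq {g : Geo} {e x : ℤ × ℤ} (h : g.Nr e x) : g.E x = e := by
  have := g.hL; have := g.K_ge; have := g.hΛ
  unfold Nr at h
  exact Prod.ext (g.n_eq (by omega) (by omega)) (g.r_eq (by omega) (by omega))

theorem Mb.nr {g : Geo} {e x y : ℤ × ℤ} (h : g.Mb e x) (hc : Cl g.L x y) : g.Nr e y := by
  have := g.hL; have := g.h1 e; have := g.h2 e; have := g.h3 e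
  unfold Mb at h; unfold Cl at hc; unfold Nr
  omega

theorem Rb.nr {g : Geo} {e x y : ℤ × ℤ} (h : g.Rb e x) (hc : Cl g.L x y) : g.Nr e y := by
  have := g.hL; have := g.h1 e; have := g.h2 e; have := g.h3 e
  unfold Rb at h; unfold Cl at hc; unfold Nr
  omega

theorem Cl_refl (x : ℤ × ℤ) : Cl g.L x x := by
  have := g.hL
  unfold Cl
  omega

theorem Mb.E_eq {g : Geo} {e x : ℤ × ℤ} (h : g.Mb e x) : g.E x = e := (h.nr (g.Cl_refl x)).E_eq
theorem Rb.E_eq {g : Geo} {e x : ℤ × ℤ} (h : g.Rb e x) : g.E x = e := (h.nr (g.Cl_refl x)).E_eq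

theorem far {e x y : ℤ × ℤ} (h1 : g.Mb e x) (h2 : g.Rb e y) : ¬ Cl g.L x y := by
  have := g.hL; have := g.h2 e
  unfold Mb at h1; unfold Rb at h2; unfold Cl
  omega

theorem cls (x : ℤ × ℤ) : (∃ e, g.Mb e x) ∨ (∃ e, g.Rb e x) ∨ g.Out x := by
  by_cases h1 : ∃ e, g.Mb e x
  · exact Or.inl h1
  by_cases h2 : ∃ e, g.Rb e x
  · exact Or.inr (Or.inl h2)
  exact Or.inr (Or.inr fun e => ⟨fun h => h1 ⟨e, h⟩, fun h => h2 ⟨e, h⟩⟩)

theorem rect_ne {a b c d : ℤ} {x : ℤ × ℤ} (h : g.rect a b c d x ≠ 0) :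
    a < x.1 ∧ x.1 < b ∧ c < x.2 ∧ x.2 < d := by
  unfold rect at h
  omega

theorem H_ne {x : ℤ × ℤ} (h : g.H x ≠ 0) : ∃ e : ℤ × ℤ,
    ((e.1 - e.2) % 2 = 0 ∧ g.Λ * e.1 + 3 * g.L < x.1 ∧ x.1 < g.Λ * e.1 + 2 * g.Λ - 3 * g.L ∧
      g.Λ * e.2 + 3 * g.L < x.2 ∧ x.2 < g.Λ * e.2 + g.Λ - 3 * g.L) ∨
    (g.Λ * e.1 + g.t e - 5 * g.L < x.1 ∧ x.1 < g.Λ * e.1 + g.t e + 5 * g.L ∧
      g.Λ * e.2 - 5 * g.L < x.2 ∧ x.2 < g.Λ * e.2 + 5 * g.L) ∨ g.Rb e x := by
  obtain ⟨e, he⟩ := g.H_att x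
  refine ⟨e, ?_⟩
  by_cases h1 : g.hB e x = 0
  · by_cases h2 : g.hG e x = 0
    · have h3 : g.hR e x ≠ 0 := by
        intro h3
        apply h
        rw [he, hh, h1, h2, h3]
        simp
      exact Or.inr (Or.inr (g.rect_ne h3))
    · exact Or.inr (Or.inl (g.rect_ne h2))
  · left
    unfold hB at h1
    split_ifs at h1 with h4
    · exact ⟨h4, g.rect_ne h1⟩
    · exact absurd rfl h1

/-- the brick containing a point -/
def V (x : ℤ × ℤ) : ℤ × ℤ := ((g.n x - g.k x) / 2, g.k x)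

theorem out_out {x y : ℤ × ℤ} (hx : g.Out x) (h : g.H x ≠ 0) (hc : Cl g.L x y) :
    g.V x = g.V y := by
  have := g.hL; have := g.K_ge; have := g.hΛ
  obtain ⟨e, he | he | he⟩ := g.H_ne h
  · unfold Cl at hc
    have k1 : g.k x = e.2 := g.k_eq (by omega) (by omega)
    have k2 : g.k y = e.2 := g.k_eq (by omega) (by omega)
    have m : g.Λ * (e.1 + 1) = g.Λ * e.1 + g.Λ := by ring
    have n1 : g.n x = e.1 ∨ g.n x = e.1 + 1 := by
      by_cases h' : x.1 < g.Λ * e.1 + g.Λ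
      · exact Or.inl (g.n_eq (by omega) (by omega))
      · exact Or.inr (g.n_eq (by omega) (by omega))
    have n2 : g.n y = e.1 ∨ g.n y = e.1 + 1 := by
      by_cases h' : y.1 < g.Λ * e.1 + g.Λ
      · exact Or.inl (g.n_eq (by omega) (by omega))
      · exact Or.inr (g.n_eq (by omega) (by omega))
    unfold V
    refine Prod.ext ?_ ?_ <;> simp only <;> omega
  · have h0 := (hx e).1
    have := g.h1 e; have := g.h2 e; have := g.h3 e
    unfold Mb at h0; unfold Cl at hc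
    have n1 : g.n x = e.1 := g.n_eq (by omega) (by omega)
    have n2 : g.n y = e.1 := g.n_eq (by omega) (by omega)
    have m : g.Λ * (e.2 - 1) = g.Λ * e.2 - g.Λ := by ring
    have k1 : g.k x = g.k y := by
      by_cases h' : g.Λ * e.2 ≤ x.2
      · rw [g.k_eq (i := e.2) (by omega) (by omega), g.k_eq (i := e.2) (by omega) (by omega)]
      · rw [g.k_eq (i := e.2 - 1) (by omega) (by omega),
          g.k_eq (i := e.2 - 1) (by omega) (by omega)]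
    unfold V
    rw [n1, n2, k1]
  · exact absurd he (hx e).2

theorem out_box {x y e : ℤ × ℤ} (hx : g.Out x) (h : g.H x ≠ 0) (hn : g.Nr e x)
    (h2 : g.Λ * e.2 - 3 * g.L < x.2 ∧ x.2 < g.Λ * e.2 + 3 * g.L) :
    g.Λ * e.1 + g.t e - 5 * g.L < x.1 ∧ x.1 < g.Λ * e.1 + g.t e + 5 * g.L ∧
      (x.2 ≤ g.Λ * e.2 - 2 * g.L ∨ g.Λ * e.2 + 2 * g.L ≤ x.2) := by
  have := g.hL; have := g.K_ge; have := g.hΛ
  obtain ⟨e', he | he | he⟩ := g.H_ne h
  · exfalso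
    rcases lt_or_ge e'.2 e.2 with h' | h'
    · have := g.step h'; omega
    · have := g.mono 0 (a := e.2) (b := e'.2) (by omega); omega
  · have : g.Nr e' x := by
      have := g.h1 e'; have := g.h2 e'; have := g.h3 e'
      unfold Nr
      omega
    obtain rfl : e = e' := hn.E_eq.symm.trans this.E_eq
    have h0 := (hx e).1
    unfold Mb at h0
    omega
  · exact absurd he (hx e').2

theorem out_room {x y e : ℤ × ℤ} (hx : g.Out x) (h : g.H x ≠ 0) (hy : g.Rb e y)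
    (hc : Cl g.L y x) : False := by
  have h1 := g.out_box (y := y) hx h (hy.nr hc) (by unfold Rb at hy; unfold Cl at hc; omega)
  have := g.h2 e
  unfold Rb at hy; unfold Cl at hc
  omega

theorem out_below {x y e : ℤ × ℤ} (hx : g.Out x) (h : g.H x ≠ 0) (hy : g.Mb e y)
    (hc : Cl g.L y x) (h2 : y.2 < g.Λ * e.2 + g.L) : g.V x = ((e.1 - e.2 + 1) / 2, e.2 - 1) := by
  have h1 := g.out_box (y := y) hx h (hy.nr hc) (by unfold Mb at hy; unfold Cl at hc; omega)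
  have := g.hL; have := g.K_ge; have := g.hΛ
  have := g.h1 e; have := g.h2 e; have := g.h3 e
  have m : g.Λ * (e.2 - 1) = g.Λ * e.2 - g.Λ := by ring
  unfold Mb at hy; unfold Cl at hc
  unfold V
  rw [g.n_eq (i := e.1) (by omega) (by omega), g.k_eq (i := e.2 - 1) (by omega) (by omega)]
  refine Prod.ext ?_ rfl
  simp only
  omega

theorem out_above {x y e : ℤ × ℤ} (hx : g.Out x) (h : g.H x ≠ 0) (hy : g.Mb e y)
    (hc : Cl g.L y x) (h2 : g.Λ * e.2 - g.L < y.2) : g.V x = ((e.1 - e.2) / 2, e.2) := by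
  have h1 := g.out_box (y := y) hx h (hy.nr hc) (by unfold Mb at hy; unfold Cl at hc; omega)
  have := g.hL; have := g.K_ge; have := g.hΛ
  have := g.h1 e; have := g.h2 e; have := g.h3 e
  unfold Mb at hy; unfold Cl at hc
  unfold V
  rw [g.n_eq (i := e.1) (by omega) (by omega), g.k_eq (i := e.2) (by omega) (by omega)]

theorem H_mid {x e : ℤ × ℤ} (hn : g.Nr e x)
    (h2 : g.Λ * e.2 - g.L < x.2 ∧ x.2 < g.Λ * e.2 + g.L) :
    g.H x = max (g.hG e x) (g.hR e x) := by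
  have := g.hL; have := g.K_ge; have := g.hΛ
  have a1 := g.le_H e x
  have a2 : 0 ≤ g.hG e x := (g.rect_le _ _ _ _ _).1
  obtain ⟨e', he⟩ := g.H_att x
  have b1 : g.hB e' x = 0 := by
    unfold hB
    split_ifs
    · by_contra h
      have := g.rect_ne h
      rcases lt_or_ge e'.2 e.2 with h' | h'
      · have := g.step h'; omega
      · have := g.mono 0 (a := e.2) (b := e'.2) (by omega); omega
    · rfl
  by_cases hee : e' = e
  · subst hee
    unfold hh at he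
    omega
  · have := g.h1 e'; have := g.h2 e'; have := g.h3 e'
    have b2 : g.hG e' x = 0 := by
      by_contra h
      have := g.rect_ne h
      have : g.Nr e' x := by unfold Nr; omega
      exact hee (this.E_eq.symm.trans hn.E_eq)
    have b3 : g.hR e' x = 0 := by
      by_contra h
      have := g.rect_ne h
      have : g.Nr e' x := by unfold Nr; omega
      exact hee (this.E_eq.symm.trans hn.E_eq)
    unfold hh at he a1
    omega

theorem H_match {x y e : ℤ × ℤ} (hx : g.Mb e x) (hy1 : y.1 = x.1 + (g.t' e - g.t e))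
    (hy2 : y.2 = x.2) (h2 : g.Λ * e.2 - g.L < x.2 ∧ x.2 < g.Λ * e.2 + g.L) : g.H x = g.H y := by
  have := g.hL; have := g.h1 e; have := g.h2 e; have := g.h3 e
  have hy : g.Rb e y := by unfold Mb at hx; unfold Rb; omega
  rw [g.H_mid (hx.nr (g.Cl_refl x)) h2, g.H_mid (hy.nr (g.Cl_refl y)) (by omega)]
  unfold Mb at hx
  unfold hG hR rect
  omega

/-- vertex index for the first colour -/
def J (x : ℤ × ℤ) : ℤ := if g.Λ * g.n x + g.t (g.E x) ≤ x.1 then g.n x + 1 else g.n x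

/-- label of the first colour -/
def C (x : ℤ × ℤ) : ℤ × ℤ := (g.J x, (g.r x - g.J x) / 2)

theorem J_wall {x : ℤ × ℤ} {j : ℤ} (h1 : g.Λ * j - 5 * g.L ≤ x.1) (h2 : x.1 ≤ g.Λ * j + 5 * g.L) :
    g.J x = j := by
  have := g.hL; have := g.K_ge; have := g.hΛ
  have := g.h1 (g.E x); have := g.h2 (g.E x); have := g.h3 (g.E x)
  have m : g.Λ * (j - 1) = g.Λ * j - g.Λ := by ring
  unfold J
  by_cases h : g.Λ * j ≤ x.1
  · rw [g.n_eq (i := j) (by omega) (by omega), if_neg (by omega)]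
  · rw [g.n_eq (i := j - 1) (by omega) (by omega), if_pos (by omega)]
    ring

theorem near_net {x : ℤ × ℤ} (h : g.H x ≠ g.L) :
    (g.Λ * g.r x - 4 * g.L < x.2 ∧ x.2 < g.Λ * g.r x + 4 * g.L) ∨
      ∃ j, (j - g.k x) % 2 = 0 ∧ g.Λ * j - 4 * g.L < x.1 ∧ x.1 < g.Λ * j + 4 * g.L := by
  have := g.hL; have := g.K_ge; have := g.hΛ
  have hn := g.n_spec x
  have hk := g.k_spec x
  have a0 := (g.H_le x).2
  obtain ⟨j, hj1, hj2, hj3⟩ : ∃ j, (j - g.k x) % 2 = 0 ∧ g.Λ * j ≤ x.1 ∧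
      x.1 < g.Λ * j + 2 * g.Λ := by
    by_cases hp : (g.n x - g.k x) % 2 = 0
    · exact ⟨g.n x, hp, by omega, by omega⟩
    · have m : g.Λ * (g.n x - 1) = g.Λ * g.n x - g.Λ := by ring
      exact ⟨g.n x - 1, by omega, by omega, by omega⟩
  have a1 := g.le_H (j, g.k x) x
  have a2 : g.hB (j, g.k x) x < g.L := by
    unfold hh at a1
    omega
  unfold hB at a2
  rw [if_pos hj1] at a2
  unfold rect at a2
  simp only at a2
  have m1 : g.Λ * (j + 2) = g.Λ * j + 2 * g.Λ := by ring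
  have m2 : g.Λ * (g.k x + 1) = g.Λ * g.k x + g.Λ := by ring
  by_cases c1 : x.1 < g.Λ * j + 4 * g.L
  · exact Or.inr ⟨j, hj1, by omega, c1⟩
  by_cases c2 : g.Λ * (j + 2) - 4 * g.L < x.1
  · exact Or.inr ⟨j + 2, by omega, c2, by omega⟩
  left
  by_cases c3 : x.2 < g.Λ * g.k x + 4 * g.L
  · rw [g.r_eq (i := g.k x) (by omega) (by omega)]
    omega
  · rw [g.r_eq (i := g.k x + 1) (by omega) (by omega)]
    omega

theorem C_eq {x y : ℤ × ℤ} (h : g.H x ≠ g.L) (hc : Cl g.L x y) : g.C x = g.C y := by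
  have := g.hL; have := g.K_ge; have := g.hΛ
  unfold Cl at hc
  rcases g.near_net h with h1 | ⟨j, h1, h2, h3⟩
  · have r1 : g.r y = g.r x := g.r_eq (by omega) (by omega)
    have j1 : g.J x = g.J y := by
      have nx := g.n_spec x
      have ny := g.n_spec y
      rcases lt_trichotomy (g.n x) (g.n y) with h' | h' | h'
      · have := g.step h'
        rw [g.J_wall (j := g.n y) (by omega) (by omega), g.J_wall (j := g.n y) (by omega) (by omega)]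
      · have e1 : g.E y = g.E x := Prod.ext h'.symm r1
        have a0 := (g.H_le x).2
        have a1 := g.le_H (g.E x) x
        have a2 : g.hG (g.E x) x < g.L := by
          unfold hh at a1
          omega
        unfold hG rect at a2
        have e2 : (g.E x).1 = g.n x := rfl
        have e3 : (g.E x).2 = g.r x := rfl
        rw [e2, e3] at a2
        unfold J
        rw [e1, ← h']
        split_ifs <;> omega
      · have := g.step h'
        rw [g.J_wall (j := g.n x) (by omega) (by omega), g.J_wall (j := g.n x) (by omega) (by omega)]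
    unfold C
    rw [r1, j1]
  · have j1 : g.J x = j := g.J_wall (by omega) (by omega)
    have j2 : g.J y = j := g.J_wall (by omega) (by omega)
    unfold C
    rw [j1, j2]
    refine Prod.ext rfl ?_
    simp only
    have rx := g.r_spec x
    have ry := g.r_spec y
    rcases lt_trichotomy (g.r x) (g.r y) with h' | h' | h'
    · have := g.step h'
      have m : g.Λ * (g.r x + 1) = g.Λ * g.r x + g.Λ := by ring
      have : g.r y = g.r x + 1 := g.r_eq (by omega) (by omega)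
      have : g.k x = g.r x := g.k_eq (by omega) (by omega)
      omega
    · rw [h']
    · have := g.step h'
      have m : g.Λ * (g.r y + 1) = g.Λ * g.r y + g.Λ := by ring
      have : g.r x = g.r y + 1 := g.r_eq (by omega) (by omega)
      have : g.k x = g.r y := g.k_eq (by omega) (by omega)
      omega

theorem C_diam {x y : ℤ × ℤ} (h : g.C x = g.C y) : Cl (2 * g.Λ) x y := by
  have h1 : g.J x = g.J y := congrArg Prod.fst h
  have h2 : (g.r x - g.J x) / 2 = (g.r y - g.J y) / 2 := congrArg Prod.snd h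
  have a1 : g.J x = g.n x ∨ g.J x = g.n x + 1 := by unfold J; split_ifs <;> simp
  have a2 : g.J y = g.n y ∨ g.J y = g.n y + 1 := by unfold J; split_ifs <;> simp
  have := g.mono 1 (a := g.n x) (b := g.n y) (by omega)
  have := g.mono 1 (a := g.n y) (b := g.n x) (by omega)
  have := g.mono 1 (a := g.r x) (b := g.r y) (by omega)
  have := g.mono 1 (a := g.r y) (b := g.r x) (by omega)
  have := g.n_spec x; have := g.n_spec y; have := g.r_spec x; have := g.r_spec y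
  unfold Cl
  omega

open Classical in
/-- the involution exchanging main boxes and rooms -/
noncomputable def ι (x : ℤ × ℤ) : ℤ × ℤ :=
  if g.Mb (g.E x) x then (x.1 + (g.t' (g.E x) - g.t (g.E x)), x.2)
  else if g.Rb (g.E x) x then (x.1 - (g.t' (g.E x) - g.t (g.E x)), x.2) else x

open Classical in
/-- label of the second colour -/
noncomputable def D (x : ℤ × ℤ) : ℤ × ℤ :=
  if g.Mb (g.E x) x then (((g.E x).1 - (g.E x).2 + 1) / 2, (g.E x).2 - 1)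
  else if g.Rb (g.E x) x then (((g.E x).1 - (g.E x).2) / 2, (g.E x).2) else g.V x

theorem Rb.not_mb {g : Geo} {e x : ℤ × ℤ} (h : g.Rb e x) : ¬ g.Mb e x :=
  fun h' => g.far h' h (g.Cl_refl x)

theorem Mb.ι_eq {g : Geo} {e x : ℤ × ℤ} (h : g.Mb e x) :
    g.ι x = (x.1 + (g.t' e - g.t e), x.2) := by
  unfold ι
  rw [h.E_eq, if_pos h]

theorem Rb.ι_eq {g : Geo} {e x : ℤ × ℤ} (h : g.Rb e x) :
    g.ι x = (x.1 - (g.t' e - g.t e), x.2) := by
  unfold ι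
  rw [h.E_eq, if_neg h.not_mb, if_pos h]

theorem Out.ι_eq {g : Geo} {x : ℤ × ℤ} (h : g.Out x) : g.ι x = x := by
  unfold ι
  rw [if_neg (h _).1, if_neg (h _).2]

theorem Mb.D_eq {g : Geo} {e x : ℤ × ℤ} (h : g.Mb e x) :
    g.D x = ((e.1 - e.2 + 1) / 2, e.2 - 1) := by
  unfold D
  rw [h.E_eq, if_pos h]

theorem Rb.D_eq {g : Geo} {e x : ℤ × ℤ} (h : g.Rb e x) : g.D x = ((e.1 - e.2) / 2, e.2) := by
  unfold D
  rw [h.E_eq, if_neg h.not_mb, if_pos h]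

theorem Out.D_eq {g : Geo} {x : ℤ × ℤ} (h : g.Out x) : g.D x = g.V x := by
  unfold D
  rw [if_neg (h _).1, if_neg (h _).2]

theorem Mb.rb_ι {g : Geo} {e x : ℤ × ℤ} (h : g.Mb e x) : g.Rb e (g.ι x) := by
  rw [h.ι_eq]
  unfold Mb at h; unfold Rb
  simp only
  omega

theorem Rb.mb_ι {g : Geo} {e x : ℤ × ℤ} (h : g.Rb e x) : g.Mb e (g.ι x) := by
  rw [h.ι_eq]
  unfold Rb at h; unfold Mb
  simp only
  omega

theorem ι_ι (x : ℤ × ℤ) : g.ι (g.ι x) = x := by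
  rcases g.cls x with ⟨e, h⟩ | ⟨e, h⟩ | h
  · rw [h.rb_ι.ι_eq, h.ι_eq]
    simp
  · rw [h.mb_ι.ι_eq, h.ι_eq]
    simp
  · rw [h.ι_eq, h.ι_eq]

theorem ι_snd (x : ℤ × ℤ) : (g.ι x).2 = x.2 := by
  rcases g.cls x with ⟨e, h⟩ | ⟨e, h⟩ | h
  · rw [h.ι_eq]
  · rw [h.ι_eq]
  · rw [h.ι_eq]

theorem ι_close (x : ℤ × ℤ) : Cl (3 * g.Λ) x (g.ι x) := by
  have := g.hL; have := g.Λ_pos
  rcases g.cls x with ⟨e, h⟩ | ⟨e, h⟩ | h
  · have := g.h1 e; have := g.h2 e; have := g.h3 e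
    rw [h.ι_eq]; unfold Cl; simp only; omega
  · have := g.h1 e; have := g.h2 e; have := g.h3 e
    rw [h.ι_eq]; unfold Cl; simp only; omega
  · rw [h.ι_eq]; unfold Cl; omega

theorem D_spec (x : ℤ × ℤ) : (g.D x).1 = (g.n x - (g.D x).2) / 2 ∧
    g.r x - 1 ≤ (g.D x).2 ∧ (g.D x).2 ≤ g.r x := by
  rcases g.cls x with ⟨e, h⟩ | ⟨e, h⟩ | h
  · have h1 : g.n x = e.1 := congrArg Prod.fst h.E_eq
    have h2 : g.r x = e.2 := congrArg Prod.snd h.E_eq
    rw [h.D_eq]; simp only; omega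
  · have h1 : g.n x = e.1 := congrArg Prod.fst h.E_eq
    have h2 : g.r x = e.2 := congrArg Prod.snd h.E_eq
    rw [h.D_eq]; simp only; omega
  · rw [h.D_eq]
    unfold V
    simp only
    have := g.hL; have := g.K_ge; have := g.hΛ
    have := g.k_spec x
    have m : g.Λ * (g.k x + 1) = g.Λ * g.k x + g.Λ := by ring
    refine ⟨trivial, ?_⟩
    by_cases c : x.2 < g.Λ * g.k x + g.K
    · rw [g.r_eq (i := g.k x) (by omega) (by omega)]; omega
    · rw [g.r_eq (i := g.k x + 1) (by omega) (by omega)]; omega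

theorem D_diam {x y : ℤ × ℤ} (h : g.D x = g.D y) : Cl (2 * g.Λ) x y := by
  have a1 := g.D_spec x
  have a2 := g.D_spec y
  rw [h] at a1
  have := g.mono 1 (a := g.n x) (b := g.n y) (by omega)
  have := g.mono 1 (a := g.n y) (b := g.n x) (by omega)
  have := g.mono 1 (a := g.r x) (b := g.r y) (by omega)
  have := g.mono 1 (a := g.r y) (b := g.r x) (by omega)
  have := g.n_spec x; have := g.n_spec y; have := g.r_spec x; have := g.r_spec y
  unfold Cl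
  omega

/-- `u` is an active position for the basis vector at `x` -/
def Act (x u : ℤ × ℤ) : Prop :=
  g.H u ≠ 0 ∧ ((u = x ∧ (g.Out x ∨ x.2 < g.Λ * g.r x + g.L)) ∨
    (u = g.ι x ∧ ¬ g.Out x ∧ g.Λ * g.r x - g.L < x.2))

theorem act_out {x y v : ℤ × ℤ} (hx : g.Out x) (h : g.H x ≠ 0) (hy : g.Act y v)
    (hc : Cl g.L v x) : g.D x = g.D y := by
  rw [hx.D_eq]
  rcases g.cls y with ⟨e, h1⟩ | ⟨e, h1⟩ | h1
  · have h2 : g.r y = e.2 := congrArg Prod.snd h1.E_eq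
    rcases hy.2 with ⟨rfl, h3 | h3⟩ | ⟨rfl, -, -⟩
    · exact absurd h1 (h3 e).1
    · rw [h1.D_eq]
      exact g.out_below hx h h1 hc (by rwa [← h2])
    · exact (g.out_room hx h h1.rb_ι hc).elim
  · have h2 : g.r y = e.2 := congrArg Prod.snd h1.E_eq
    rcases hy.2 with ⟨rfl, -⟩ | ⟨rfl, -, h3⟩
    · exact (g.out_room hx h h1 hc).elim
    · rw [h1.D_eq]
      exact g.out_above hx h h1.mb_ι hc (by rwa [g.ι_snd, ← h2])
  · rw [h1.D_eq]
    rcases hy.2 with ⟨rfl, -⟩ | ⟨rfl, h3, -⟩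
    · exact g.out_out hx h hc.symm
    · exact absurd h1 h3

theorem act_box {x u e : ℤ × ℤ} (h : g.Mb e x ∨ g.Rb e x) (hx : g.Act x u) :
    g.Mb e u ∨ g.Rb e u := by
  rcases hx.2 with ⟨rfl, -⟩ | ⟨rfl, -⟩
  · exact h
  · rcases h with h | h
    · exact Or.inr h.rb_ι
    · exact Or.inl h.mb_ι

theorem box_eq {u v e e' : ℤ × ℤ} (h1 : g.Mb e u ∨ g.Rb e u) (h2 : g.Mb e' v ∨ g.Rb e' v)
    (hc : Cl g.L u v) : e = e' := by
  have a1 : g.E v = e := by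
    rcases h1 with h | h
    · exact (h.nr hc).E_eq
    · exact (h.nr hc).E_eq
  have a2 : g.E v = e' := by
    rcases h2 with h | h
    · exact h.E_eq
    · exact h.E_eq
  rw [← a1, a2]

theorem act_act {x y u v : ℤ × ℤ} (hx : g.Act x u) (hy : g.Act y v) (hc : Cl g.L u v) :
    g.D x = g.D y ∨ ∃ e, (g.Mb e x ∧ g.Rb e y) ∨ (g.Rb e x ∧ g.Mb e y) := by
  by_cases ox : g.Out x
  · left
    rcases hx.2 with ⟨rfl, -⟩ | ⟨-, h3, -⟩
    · exact g.act_out ox hx.1 hy hc.symm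
    · exact absurd ox h3
  by_cases oy : g.Out y
  · left
    rcases hy.2 with ⟨rfl, -⟩ | ⟨-, h3, -⟩
    · exact (g.act_out oy hy.1 hx hc).symm
    · exact absurd oy h3
  rcases g.cls x with ⟨e, h1⟩ | ⟨e, h1⟩ | h1
  · rcases g.cls y with ⟨e', h2⟩ | ⟨e', h2⟩ | h2
    · obtain rfl := g.box_eq (g.act_box (Or.inl h1) hx) (g.act_box (Or.inl h2) hy) hc
      exact Or.inl (by rw [h1.D_eq, h2.D_eq])
    · obtain rfl := g.box_eq (g.act_box (Or.inl h1) hx) (g.act_box (Or.inr h2) hy) hc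
      exact Or.inr ⟨e, Or.inl ⟨h1, h2⟩⟩
    · exact absurd h2 oy
  · rcases g.cls y with ⟨e', h2⟩ | ⟨e', h2⟩ | h2
    · obtain rfl := g.box_eq (g.act_box (Or.inr h1) hx) (g.act_box (Or.inl h2) hy) hc
      exact Or.inr ⟨e, Or.inr ⟨h1, h2⟩⟩
    · obtain rfl := g.box_eq (g.act_box (Or.inr h1) hx) (g.act_box (Or.inr h2) hy) hc
      exact Or.inl (by rw [h1.D_eq, h2.D_eq])
    · exact absurd h2 oy
  · exact absurd h1 ox

end Geo

end Pool.Agent.H562Z.Roe
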