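import Pool.Agent.H562Z.Roe.Scheme
import Pool.Agent.H63Fed.Kuhn

/-!
# The uniform Roe algebra of `ℤ²` has nuclear dimension at most one
-/

set_option autoImplicit false
set_option linter.unusedSectionVars false
set_option linter.unusedSimpArgs false
set_option linter.deprecated false
set_option linter.style.haveILetI false

namespace Pool.Agent.H562Z.Roe

open scoped InnerProductSpace ComplexConjugate CStarAlgebra
open Pool.Agent.H812R3.KP (B dl ent ent_eq_inner ent_star ent_mul hasSum_apply ent_ext ent_add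
  ent_sub ent_smul ent_zero ent_sum ent_one norm_ent_le)

theorem dist_le_iff (R : ℤ) (x y : ℤ × ℤ) : dist x y ≤ (R : ℝ) ↔ Geo.Cl R x y := by
  rw [Prod.dist_eq, max_le_iff, Int.dist_eq, Int.dist_eq, abs_le, abs_le]
  unfold Geo.Cl
  constructor
  · rintro ⟨⟨h1, h2⟩, h3, h4⟩
    have a1 : -R ≤ x.1 - y.1 := by exact_mod_cast h1
    have a2 : x.1 - y.1 ≤ R := by exact_mod_cast h2
    have a3 : -R ≤ x.2 - y.2 := by exact_mod_cast h3
    have a4 : x.2 - y.2 ≤ R := by exact_mod_cast h4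
    omega
  · rintro ⟨h1, h2, h3, h4⟩
    have a1 : -R ≤ x.1 - y.1 := by omega
    have a2 : x.1 - y.1 ≤ R := by omega
    have a3 : -R ≤ x.2 - y.2 := by omega
    have a4 : x.2 - y.2 ≤ R := by omega
    exact ⟨⟨by exact_mod_cast a1, by exact_mod_cast a2⟩, by exact_mod_cast a3, by exact_mod_cast a4⟩

theorem bg : BoundedGeometry (ℤ × ℤ) := by
  intro r _
  have hf : (Metric.ball (0 : ℤ × ℤ) r).Finite :=
    (isCompact_closedBall (0 : ℤ × ℤ) r).finite_of_discrete.subset Metric.ball_subset_closedBall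
  refine ⟨hf.toFinset.card, fun x => ?_⟩
  rw [← hf.encard_eq_coe_toFinset_card]
  refine le_trans (Set.encard_le_encard ?_) (Set.encard_image_le (fun y => x + y) _)
  intro y hy
  refine ⟨y - x, ?_, by simp⟩
  rw [Metric.mem_ball, dist_eq_norm] at *
  simpa using hy

theorem two_le_asdim : 2 ≤ asdim (ℤ × ℤ) := by
  classical
  refine le_iInf₂ fun n hn => ?_
  obtain ⟨𝒰, S, h1, h2, h3⟩ := hn 2 two_pos
  choose U hU1 hU2 using h1
  obtain ⟨m, hm⟩ := exists_nat_gt S
  let pt : (ℕ → ℕ) → ℤ × ℤ := fun y => (y 0, y 1)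
  let lb : Set (ℤ × ℤ) → ℕ := fun W =>
    if ∃ z ∈ W, z.1 = m then 0 else if ∃ z ∈ W, z.2 = m then 1 else 2
  have far : ∀ x z : ℤ × ℤ, z ∈ U x → dist x z < m := fun x z hz =>
    (h2 _ (hU1 x) _ (hU2 x) _ hz).trans_lt hm
  obtain ⟨x, -, hx⟩ := H63Fed.Kuhn.kuhn 2 m (fun y => lb (U (pt y))) (by
      intro x _
      simp only [lb]
      split_ifs <;> omega) (by
      intro i hi x _ hx
      simp only [lb]
      interval_cases i
      · split_ifs with c1 c2
        · obtain ⟨z, hz1, hz2⟩ := c1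
          have h0 := far _ _ hz1
          rw [Prod.dist_eq] at h0
          have := (le_max_left _ _).trans_lt h0
          simp [pt, hx, hz2, Int.dist_eq] at this
        · omega
        · omega
      · split_ifs with c1 c2
        · omega
        · obtain ⟨z, hz1, hz2⟩ := c2
          have h0 := far _ _ hz1
          rw [Prod.dist_eq] at h0
          have := (le_max_right _ _).trans_lt h0
          simp [pt, hx, hz2, Int.dist_eq] at this
        · omega) (by
      intro i hi x _ hx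
      simp only [lb]
      interval_cases i
      · rw [if_pos ⟨pt x, hU2 _, by simp [pt, hx]⟩]
      · split_ifs with c1 c2
        · omega
        · omega
        · exact absurd ⟨pt x, hU2 _, by simp [pt, hx]⟩ c2)
  have hx' : ∀ j : Fin 3, ∃ W, (W ∈ 𝒰 ∧ (W ∩ Metric.ball (pt x) 2).Nonempty) ∧ lb W = j := by
    intro j
    obtain ⟨y, y1, -, y3⟩ := hx j (by omega)
    refine ⟨U (pt y), ⟨hU1 _, pt y, hU2 _, ?_⟩, y3⟩
    have : dist (pt y) (pt x) ≤ ((1 : ℤ) : ℝ) := by
      rw [dist_le_iff]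
      have a1 := y1 0 (by omega)
      have a2 := y1 1 (by omega)
      unfold Geo.Cl
      simp only [pt]
      omega
    rw [Metric.mem_ball]
    push_cast at this
    linarith
  choose W hW1 hW2 using hx'
  have hinj : Function.Injective W := fun i j h => Fin.ext (by rw [← hW2 i, ← hW2 j, h])
  have h4 : (Set.range W).encard ≤ n + 1 :=
    le_trans (Set.encard_le_encard (by rintro _ ⟨j, rfl⟩; exact hW1 j)) (h3 (pt x))
  replace h4 := hinj.encard_range.trans h4
  simp only [ENat.card_eq_coe_fintype_card, Fintype.card_fin] at h4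
  have h5 : 3 ≤ n + 1 := by exact_mod_cast h4
  have h6 : 2 ≤ n := by omega
  exact_mod_cast h6

theorem nuc [PartialOrder (Roe (ℤ × ℤ))] [StarOrderedRing (Roe (ℤ × ℤ))] :
    NucDimLE (Roe (ℤ × ℤ)) 1 := by
  classical
  refine crit2 bg 1 fun G hG ε hε => ?_
  choose R₀ hR₀ using fun a : G => mem_finProp.1 (hG a.1 a.2)
  obtain ⟨R, hR⟩ : ∃ R : ℕ, ∀ a : G, R₀ a ≤ R := by
    obtain ⟨b, hb⟩ := (Set.finite_range R₀).bddAbove
    obtain ⟨R, hR⟩ := exists_nat_ge b
    exact ⟨R, fun a => (hb ⟨a, rfl⟩).trans hR⟩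
  have hsupp : ∀ a ∈ G, ∀ x y, ent a x y ≠ 0 → dist x y ≤ (R : ℝ) := by
    intro a ha x y h
    by_contra hc
    exact h (hR₀ ⟨a, ha⟩ x y ((hR _).trans_lt (not_le.1 hc)))
  have hcl : ∀ a ∈ G, ∀ x y, ent a x y ≠ 0 → Geo.Cl R x y := fun a ha x y h =>
    (dist_le_iff R x y).1 (by exact_mod_cast hsupp a ha x y h)
  set C : ℝ := ∑ a ∈ G, ‖a‖ with hC
  have hC0 : 0 ≤ C := by positivity
  have hCa : ∀ a ∈ G, ∀ x y, ‖ent a x y‖ ≤ C := fun a ha x y => (norm_ent_le _ _ _).trans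
    (Finset.single_le_sum (f := fun b : B (ℤ × ℤ) => ‖b‖) (fun _ _ => norm_nonneg _) ha)
  obtain ⟨N, s, hs1, hs2⟩ := ball_finset bg (R : ℝ)
  set η : ℝ := ε / (5 * (N + 1)) with hη
  have hη0 : 0 < η := by positivity
  obtain ⟨L₀, hL₀⟩ := exists_nat_ge (4 * R * C / η)
  set L : ℤ := L₀ + R + 1 with hL
  have hL0 : 0 < L := by omega
  have hL1 : (0 : ℝ) < L := by exact_mod_cast hL0
  have hL2 : 2 * ((R : ℤ) : ℝ) / L * C ≤ η / 2 := by
    rw [div_le_iff₀ hη0] at hL₀
    have : (L₀ : ℝ) ≤ L := by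
      rw [hL]; push_cast
      have : (0 : ℝ) ≤ R := by positivity
      linarith
    rw [div_mul_eq_mul_div, div_le_iff₀ hL1]
    push_cast
    nlinarith
  let bx : Finset (ℤ × ℤ) := Finset.Icc (-(5 * L), -(5 * L)) (5 * L, 5 * L)
  obtain ⟨T, _, cl, hcl'⟩ := net (J := ℤ × ℤ) (Y := G × bx × bx)
    (fun c z => ent z.1.1 (c + z.2.1.1) (c + z.2.2.1)) C (fun c =>
      (pi_norm_le_iff_of_nonneg hC0).2 fun z => hCa _ z.1.2 _ _) (η / 2) (half_pos hη0)
  obtain ⟨g, hg1, hg2⟩ := exists_geo L hL0 cl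
  have hRL : (R : ℤ) ≤ g.L := by rw [hg1]; omega
  have hmatch : ∀ a ∈ G, ∀ e x y, g.Mb e x → g.Mb e y →
      ‖ent a (g.ι x) (g.ι y) - ent a x y‖ ≤ η / 2 := by
    intro a ha e x y hx hy
    have hb : ∀ z, g.Mb e z → z - (g.Λ * e.1 + g.t e, g.Λ * e.2) ∈ bx := by
      intro z hz
      unfold Geo.Mb at hz
      rw [hg1] at hz
      simp only [bx, Finset.mem_Icc, Prod.le_def, Prod.fst_sub, Prod.snd_sub]
      omega
    have h := hcl' _ _ (hg2 e).symm (⟨a, ha⟩, ⟨_, hb x hx⟩, ⟨_, hb y hy⟩)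
    have e1 : ∀ z, g.Mb e z → (g.Λ * e.1 + g.t' e, g.Λ * e.2) +
        (z - (g.Λ * e.1 + g.t e, g.Λ * e.2)) = g.ι z := by
      intro z hz
      rw [hz.ι_eq]
      refine Prod.ext ?_ ?_
      · simp only [Prod.fst_add, Prod.fst_sub]; ring
      · simp only [Prod.snd_add, Prod.snd_sub]; ring
    simp only [e1 x hx, e1 y hy, add_sub_cancel] at h
    exact h
  have hΛ := g.Λ_pos
  have hd : ∀ x y, Geo.Cl (3 * g.Λ) x y → dist x y ≤ ((3 * g.Λ : ℤ) : ℝ) := fun x y h =>
    (dist_le_iff _ x y).2 h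
  refine ⟨ℤ × ℤ, ![g.C, g.D],
    ![diag (fun x => Real.cos (g.α x)) (fun _ => Real.abs_cos_le_one _),
      diag (fun x => Real.sin (g.α x)) (fun _ => Real.abs_sin_le_one _) * g.rot.U],
    ![1, g.rot.U], ((3 * g.Λ : ℤ) : ℝ), ?_, ?_, ?_, ?_, fun a ha => ?_⟩
  · refine Fin.forall_fin_two.2 ⟨norm_diag_le _ _, (norm_mul_le _ _).trans ?_⟩
    exact mul_le_one₀ (norm_diag_le _ _) (norm_nonneg _) (norm_le_one_of_isom g.rot.sU_U)
  · exact Fin.forall_fin_two.2 ⟨one_mem _, g.rot.U_fp _ fun x => hd _ _ (g.ι_close x)⟩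
  · exact Fin.forall_fin_two.2 ⟨by simp, g.rot.sU_U⟩
  · exact Fin.forall_fin_two.2 ⟨fun x y h => hd _ _ ((g.C_diam h).mono (by omega)),
      fun x y h => hd _ _ ((g.D_diam h).mono (by omega))⟩
  · rw [Fin.sum_univ_two]
    refine le_trans (scheme a N s hs1 (fun x y h => ?_) g.C g.D _ _ _ _ g.rot η hη0.le
      (fun x y h1 h2 => ?_) (fun x y => ?_) (fun x y h => ?_)) ?_
    · have := hsupp a ha x y h
      exact ⟨(hs2 _ _).2 this, (hs2 _ _).2 (by rwa [dist_comm])⟩
    · by_contra h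
      exact h1 (g.C_eq (g.H_ne_of_cos h) ((hcl a ha x y h2).mono hRL))
    · by_cases h : ent a x y = 0
      · rw [h, mul_zero, norm_zero]; exact hη0.le
      · rw [norm_mul, Complex.norm_real, Real.norm_eq_abs]
        have := mul_le_mul (g.f_lip (hcl a ha x y h)) (hCa a ha x y) (norm_nonneg _)
          (by have := g.L_pos; positivity)
        rw [hg1] at this
        linarith
    · have := g.key (R := R) (by positivity) hRL (ent a) C (η / 2) (half_pos hη0).le (hcl a ha)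
        (hCa a ha) (hmatch a ha) x y h
      rw [hg1] at this
      exact this.trans (by linarith)
    · have : 5 * (N + 1) * η = ε := by rw [hη]; field_simp
      rw [← this]
      gcongr
      linarith

theorem nucDim_le [PartialOrder (Roe (ℤ × ℤ))] [StarOrderedRing (Roe (ℤ × ℤ))] :
    nucDim (Roe (ℤ × ℤ)) ≤ 1 :=
  iInf₂_le (f := fun (n : ℕ) (_ : NucDimLE (Roe (ℤ × ℤ)) n) => (n : ℕ∞)) 1 nuc

end Pool.Agent.H562Z.Roe
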