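import Pool.Agent.H562Z.Roe.Defs
import Pool.Agent.H812R3.KP.Defs

/-!
# Operators on `ℓ²(X)`: Schur test, diagonal operators, rotations, finite propagation
-/

set_option autoImplicit false
set_option linter.unusedSectionVars false
set_option linter.unusedSimpArgs false
set_option linter.deprecated false

namespace Pool.Agent.H562Z.Roe

open scoped InnerProductSpace ComplexConjugate
open Pool.Agent.H812R3.KP (B dl ent ent_eq_inner ent_star ent_mul hasSum_apply ent_ext ent_add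
  ent_sub ent_smul ent_zero ent_sum ent_one norm_ent_le norm_sq_eq summable_sq mem_of_summable
  perm ent_perm_mul ent_mul_perm dl_apply inner_dl)

variable {X : Type}

theorem delta_eq (x : X) : delta x = dl x := rfl

theorem mem_finProp [MetricSpace X] {T : B X} :
    T ∈ FinProp X ↔ ∃ R : ℝ, ∀ x y, R < dist x y → ent T x y = 0 := by
  simp only [FinProp, Set.mem_setOf_eq, ent_eq_inner, delta_eq]

theorem sum_sq_le (ξ : L2 X) (s : Finset X) : ∑ x ∈ s, ‖ξ x‖ ^ 2 ≤ ‖ξ‖ ^ 2 := by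
  rw [norm_sq_eq]
  exact (summable_sq ξ).sum_le_tsum s (fun _ _ => by positivity)

theorem norm_le_of_sum {ξ : L2 X} {C : ℝ} (hC : 0 ≤ C)
    (h : ∀ s : Finset X, ∑ x ∈ s, ‖ξ x‖ ^ 2 ≤ C ^ 2) : ‖ξ‖ ≤ C := by
  have h1 : ‖ξ‖ ^ 2 ≤ C ^ 2 := by
    rw [norm_sq_eq]
    exact (summable_sq ξ).tsum_le_of_sum_le h
  exact (sq_le_sq₀ (norm_nonneg _) hC).1 h1

/-- Schur test -/
theorem schur (T : B X) (N : ℕ) (η : ℝ) (hη : 0 ≤ η) (r : X → Finset X)
    (hr : ∀ x, (r x).card ≤ N) (h1 : ∀ x y, ent T x y ≠ 0 → y ∈ r x ∧ x ∈ r y)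
    (h2 : ∀ x y, ‖ent T x y‖ ≤ η) : ‖T‖ ≤ N * η := by
  classical
  refine ContinuousLinearMap.opNorm_le_bound _ (by positivity) fun ξ => ?_
  refine norm_le_of_sum (by positivity) fun s => ?_
  have e1 : ∀ x, ‖(T ξ) x‖ ^ 2 ≤ N * η ^ 2 * ∑ y ∈ r x, if x ∈ r y then ‖ξ y‖ ^ 2 else 0 := by
    intro x
    have a1 : (T ξ) x = ∑ y ∈ r x, ent T x y * ξ y := by
      refine (hasSum_apply T ξ x).unique (hasSum_sum_of_ne_finset_zero fun y hy => ?_)
      by_cases h : ent T x y = 0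
      · rw [h, zero_mul]
      · exact absurd (h1 x y h).1 hy
    have a2 : ‖(T ξ) x‖ ≤ ∑ y ∈ r x, ‖ent T x y * ξ y‖ := by
      rw [a1]; exact norm_sum_le _ _
    have a3 : (∑ y ∈ r x, ‖ent T x y * ξ y‖) ^ 2 ≤
        (r x).card * ∑ y ∈ r x, ‖ent T x y * ξ y‖ ^ 2 := sq_sum_le_card_mul_sum_sq
    have a4 : ∑ y ∈ r x, ‖ent T x y * ξ y‖ ^ 2 ≤
        η ^ 2 * ∑ y ∈ r x, if x ∈ r y then ‖ξ y‖ ^ 2 else 0 := by
      rw [Finset.mul_sum]
      refine Finset.sum_le_sum fun y _ => ?_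
      by_cases h : ent T x y = 0
      · rw [h, zero_mul, norm_zero, zero_pow two_ne_zero]
        split_ifs <;> positivity
      · rw [if_pos (h1 x y h).2, norm_mul, mul_pow]
        gcongr
        exact h2 x y
    have a5 : ((r x).card : ℝ) ≤ N := by exact_mod_cast hr x
    calc ‖(T ξ) x‖ ^ 2 ≤ (∑ y ∈ r x, ‖ent T x y * ξ y‖) ^ 2 := by gcongr
      _ ≤ (r x).card * ∑ y ∈ r x, ‖ent T x y * ξ y‖ ^ 2 := a3
      _ ≤ N * (η ^ 2 * ∑ y ∈ r x, if x ∈ r y then ‖ξ y‖ ^ 2 else 0) := by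
          gcongr
      _ = _ := by ring
  have e2 : ∑ x ∈ s, ∑ y ∈ r x, (if x ∈ r y then ‖ξ y‖ ^ 2 else 0) ≤ N * ‖ξ‖ ^ 2 := by
    calc ∑ x ∈ s, ∑ y ∈ r x, (if x ∈ r y then ‖ξ y‖ ^ 2 else 0)
        ≤ ∑ x ∈ s, ∑ y ∈ s.biUnion r, (if x ∈ r y then ‖ξ y‖ ^ 2 else 0) := by
          refine Finset.sum_le_sum fun x hx => ?_
          refine Finset.sum_le_sum_of_subset_of_nonneg (Finset.subset_biUnion_of_mem r hx) ?_
          intro y _ _
          split_ifs <;> positivity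
      _ = ∑ y ∈ s.biUnion r, ∑ x ∈ s, (if x ∈ r y then ‖ξ y‖ ^ 2 else 0) := Finset.sum_comm
      _ ≤ ∑ y ∈ s.biUnion r, N * ‖ξ y‖ ^ 2 := by
          refine Finset.sum_le_sum fun y _ => ?_
          rw [← Finset.sum_filter, Finset.sum_const, nsmul_eq_mul]
          have : ((s.filter fun x => x ∈ r y).card : ℝ) ≤ N := by
            have : (s.filter fun x => x ∈ r y).card ≤ (r y).card :=
              Finset.card_le_card fun x hx => (Finset.mem_filter.1 hx).2
            exact_mod_cast this.trans (hr y)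
          gcongr
      _ = N * ∑ y ∈ s.biUnion r, ‖ξ y‖ ^ 2 := by rw [Finset.mul_sum]
      _ ≤ N * ‖ξ‖ ^ 2 := by
          gcongr
          exact sum_sq_le ξ _
  calc ∑ x ∈ s, ‖(T ξ) x‖ ^ 2
      ≤ ∑ x ∈ s, N * η ^ 2 * ∑ y ∈ r x, if x ∈ r y then ‖ξ y‖ ^ 2 else 0 :=
        Finset.sum_le_sum fun x _ => e1 x
    _ = N * η ^ 2 * ∑ x ∈ s, ∑ y ∈ r x, if x ∈ r y then ‖ξ y‖ ^ 2 else 0 := by
        rw [Finset.mul_sum]
    _ ≤ N * η ^ 2 * (N * ‖ξ‖ ^ 2) := by gcongr
    _ = (N * η * ‖ξ‖) ^ 2 := by ring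

theorem ent_mul_ne {S T : B X} {x y : X} (h : ent (S * T) x y ≠ 0) :
    ∃ z, ent S x z ≠ 0 ∧ ent T z y ≠ 0 := by
  by_contra hc
  push Not at hc
  apply h
  have h1 := ent_mul S T x y
  have h2 : (fun z => ent S x z * ent T z y) = fun _ => 0 := by
    funext z
    by_cases hz : ent S x z = 0
    · simp [hz]
    · simp [hc z hz]
  rw [h2] at h1
  exact h1.unique hasSum_zero

/-- finite propagation operators form a star subalgebra -/
noncomputable def FPalg (X : Type) [MetricSpace X] : StarSubalgebra ℂ (B X) where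
  carrier := FinProp X
  mul_mem' := by
    intro a b ha hb
    obtain ⟨r, hr⟩ := mem_finProp.1 ha
    obtain ⟨s, hs⟩ := mem_finProp.1 hb
    refine mem_finProp.2 ⟨r + s, fun x y hxy => ?_⟩
    by_contra h
    obtain ⟨z, h1, h2⟩ := ent_mul_ne h
    have h3 : dist x z ≤ r := not_lt.1 fun h' => h1 (hr _ _ h')
    have h4 : dist z y ≤ s := not_lt.1 fun h' => h2 (hs _ _ h')
    linarith [dist_triangle x z y]
  add_mem' := by
    intro a b ha hb
    obtain ⟨r, hr⟩ := mem_finProp.1 ha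
    obtain ⟨s, hs⟩ := mem_finProp.1 hb
    refine mem_finProp.2 ⟨max r s, fun x y hxy => ?_⟩
    rw [ent_add, hr x y ((le_max_left _ _).trans_lt hxy), hs x y ((le_max_right _ _).trans_lt hxy),
      add_zero]
  algebraMap_mem' := by
    classical
    intro c
    refine mem_finProp.2 ⟨0, fun x y hxy => ?_⟩
    rw [Algebra.algebraMap_eq_smul_one, ent_smul, ent_one, if_neg, mul_zero]
    rintro rfl
    simp at hxy
  star_mem' := by
    intro a ha
    obtain ⟨r, hr⟩ := mem_finProp.1 ha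
    refine mem_finProp.2 ⟨r, fun x y hxy => ?_⟩
    rw [ent_star, hr y x (by rwa [dist_comm]), map_zero]

theorem roeSub_coe (X : Type) [MetricSpace X] :
    (roeSub X : Set (B X)) = closure (FinProp X) := by
  have : StarAlgebra.adjoin ℂ (FinProp X) = FPalg X := StarAlgebra.adjoin_eq (FPalg X)
  rw [roeSub, this]
  rfl

theorem fp_mem_roe [MetricSpace X] {T : B X} (h : T ∈ FPalg X) : T ∈ roeSub X := by
  rw [← SetLike.mem_coe, roeSub_coe]
  exact subset_closure h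

/-! ### diagonal operators -/

theorem diag_summ (f : X → ℝ) (hf : ∀ x, |f x| ≤ 1) (ξ : L2 X) (x : X) :
    ‖(f x : ℂ) * ξ x‖ ^ 2 ≤ ‖ξ x‖ ^ 2 := by
  rw [norm_mul, Complex.norm_real, Real.norm_eq_abs]
  exact pow_le_pow_left₀ (by positivity) (mul_le_of_le_one_left (norm_nonneg _) (hf x)) 2

/-- multiplication operator, linear map -/
noncomputable def diagL (f : X → ℝ) (hf : ∀ x, |f x| ≤ 1) : L2 X →ₗ[ℂ] L2 X where
  toFun ξ := ⟨fun x => (f x : ℂ) * ξ x, mem_of_summable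
    (Summable.of_nonneg_of_le (fun _ => by positivity) (diag_summ f hf ξ) (summable_sq ξ))⟩
  map_add' ξ ζ := by
    ext x
    change (f x : ℂ) * (ξ x + ζ x) = (f x : ℂ) * ξ x + (f x : ℂ) * ζ x
    ring
  map_smul' c ξ := by
    ext x
    change (f x : ℂ) * (c * ξ x) = c * ((f x : ℂ) * ξ x)
    ring

theorem diagL_le (f : X → ℝ) (hf : ∀ x, |f x| ≤ 1) (ξ : L2 X) : ‖diagL f hf ξ‖ ≤ 1 * ‖ξ‖ := by
  rw [one_mul]
  refine norm_le_of_sum (norm_nonneg _) fun s => ?_
  refine le_trans (Finset.sum_le_sum fun x _ => ?_) (sum_sq_le ξ s)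
  exact diag_summ f hf ξ x

/-- multiplication operator -/
noncomputable def diag (f : X → ℝ) (hf : ∀ x, |f x| ≤ 1) : B X :=
  (diagL f hf).mkContinuous 1 (diagL_le f hf)

theorem norm_diag_le (f : X → ℝ) (hf : ∀ x, |f x| ≤ 1) : ‖diag f hf‖ ≤ 1 :=
  LinearMap.mkContinuous_norm_le _ zero_le_one _

theorem ent_diag_mul (f : X → ℝ) (hf : ∀ x, |f x| ≤ 1) (T : B X) (x y : X) :
    ent (diag f hf * T) x y = f x * ent T x y := rfl

theorem ent_diag [DecidableEq X] (f : X → ℝ) (hf : ∀ x, |f x| ≤ 1) (x y : X) :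
    ent (diag f hf) x y = if x = y then (f x : ℂ) else 0 := by
  rw [← mul_one (diag f hf), ent_diag_mul, ent_one]
  split_ifs <;> simp

theorem star_diag (f : X → ℝ) (hf : ∀ x, |f x| ≤ 1) : star (diag f hf) = diag f hf := by
  classical
  apply ent_ext
  intro x y
  rw [ent_star, ent_diag, ent_diag]
  by_cases h : x = y
  · subst h; simp
  · rw [if_neg h, if_neg (Ne.symm h), map_zero]

theorem ent_mul_diag (f : X → ℝ) (hf : ∀ x, |f x| ≤ 1) (T : B X) (x y : X) :
    ent (T * diag f hf) x y = ent T x y * f y := by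
  have : T * diag f hf = star (diag f hf * star T) := by rw [star_mul, star_star, star_diag]
  rw [this, ent_star, ent_diag_mul, ent_star, map_mul, Complex.conj_conj, Complex.conj_ofReal,
    mul_comm]

theorem diag_fp [MetricSpace X] (f : X → ℝ) (hf : ∀ x, |f x| ≤ 1) : diag f hf ∈ FPalg X := by
  classical
  refine mem_finProp.2 ⟨0, fun x y hxy => ?_⟩
  rw [ent_diag, if_neg]
  rintro rfl
  simp at hxy

/-! ### rotations -/

/-- rotation data -/
structure Rot (X : Type) where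
  ι : X → X
  p : X → ℝ
  q : X → ℝ
  inv : ∀ x, ι (ι x) = x
  hp : ∀ x, p (ι x) = p x
  hq : ∀ x, q (ι x) = - q x
  hpq : ∀ x, p x ^ 2 + q x ^ 2 = 1

namespace Rot

variable (u : Rot X)

theorem p_le (x : X) : |u.p x| ≤ 1 := by
  have := u.hpq x
  rw [← sq_le_one_iff_abs_le_one]
  nlinarith [sq_nonneg (u.q x)]

theorem q_le (x : X) : |u.q x| ≤ 1 := by
  have := u.hpq x
  rw [← sq_le_one_iff_abs_le_one]
  nlinarith [sq_nonneg (u.p x)]

/-- the involution as a permutation -/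
def σ : Equiv.Perm X := Function.Involutive.toPerm u.ι u.inv

/-- the unitary `δ_x ↦ p δ_x + q δ_{ι x}` -/
noncomputable def U : B X := diag u.p u.p_le + perm u.σ * diag u.q u.q_le

theorem star_U : star u.U = diag u.p u.p_le + diag u.q u.q_le * perm u.σ := by
  rw [U, star_add, star_mul, star_diag, star_diag, H812R3.KP.star_perm]
  rfl

theorem ent_U_mul (T : B X) (x y : X) :
    ent (u.U * T) x y = u.p x * ent T x y - u.q x * ent T (u.ι x) y := by
  rw [U, add_mul, ent_add, ent_diag_mul, mul_assoc, ent_perm_mul, ent_diag_mul]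
  have : u.σ.symm x = u.ι x := rfl
  rw [this, u.hq]
  push_cast
  ring

theorem ent_sU_mul (T : B X) (x y : X) :
    ent (star u.U * T) x y = u.p x * ent T x y + u.q x * ent T (u.ι x) y := by
  rw [star_U, add_mul, ent_add, ent_diag_mul, mul_assoc, ent_diag_mul, ent_perm_mul]
  rfl

theorem ent_mul_U (T : B X) (x y : X) :
    ent (T * u.U) x y = ent T x y * u.p y + ent T x (u.ι y) * u.q y := by
  rw [U, mul_add, ent_add, ent_mul_diag, ← mul_assoc, ent_mul_diag, ent_mul_perm]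
  rfl

theorem sU_U : star u.U * u.U = 1 := by
  apply ent_ext
  intro x y
  rw [← mul_one (star u.U * u.U), mul_assoc, ent_sU_mul, ent_U_mul, ent_U_mul, u.inv, u.hp, u.hq]
  have : ((u.p x : ℂ)) ^ 2 + (u.q x : ℂ) ^ 2 = 1 := by exact_mod_cast u.hpq x
  push_cast
  linear_combination (ent (1 : B X) x y) * this

theorem U_sU : u.U * star u.U = 1 := by
  apply ent_ext
  intro x y
  rw [← mul_one (u.U * star u.U), mul_assoc, ent_U_mul, ent_sU_mul, ent_sU_mul, u.inv, u.hp, u.hq]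
  have : ((u.p x : ℂ)) ^ 2 + (u.q x : ℂ) ^ 2 = 1 := by exact_mod_cast u.hpq x
  push_cast
  linear_combination (ent (1 : B X) x y) * this

theorem U_fp [MetricSpace X] (M : ℝ) (hM : ∀ x, dist x (u.ι x) ≤ M) : u.U ∈ FPalg X := by
  classical
  refine (FPalg X).add_mem (diag_fp _ _) ((FPalg X).mul_mem ?_ (diag_fp _ _))
  refine mem_finProp.2 ⟨M, fun x y hxy => ?_⟩
  rw [H812R3.KP.ent_perm, if_neg]
  rintro rfl
  have := hM y
  rw [dist_comm] at this
  exact absurd this (not_le.2 hxy)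

end Rot

theorem norm_le_one_of_isom {U : B X} (h : star U * U = 1) : ‖U‖ ≤ 1 := by
  have h1 : ‖U‖ * ‖U‖ ≤ 1 := by
    rw [← CStarRing.norm_star_mul_self, h]
    exact ContinuousLinearMap.norm_id_le
  nlinarith [norm_nonneg U]

end Pool.Agent.H562Z.Roe
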