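import Pool.Agent.H562Z.Roe.Crit
import Pool.Agent.H562Z.Roe.Geo

/-!
# The two coloured approximation in `ℤ²`
-/

set_option autoImplicit false
set_option linter.unusedSectionVars false
set_option linter.unusedSimpArgs false
set_option linter.deprecated false
set_option linter.style.haveILetI false

namespace Pool.Agent.H562Z.Roe

open scoped InnerProductSpace ComplexConjugate CStarAlgebra
open Pool.Agent.H812R3.KP (B dl ent ent_eq_inner ent_star ent_mul hasSum_apply ent_ext ent_add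
  ent_sub ent_smul ent_zero ent_sum ent_one norm_ent_le)

theorem scheme {X Λ : Type} (a : B X) (N : ℕ) (s : X → Finset X) (hs : ∀ x, (s x).card ≤ N)
    (ha : ∀ x y, ent a x y ≠ 0 → y ∈ s x ∧ x ∈ s y) (ℓ0 ℓ1 : X → Λ) (f0 f1 : X → ℝ)
    (hf0 : ∀ x, |f0 x| ≤ 1) (hf1 : ∀ x, |f1 x| ≤ 1) (u : Rot X) (η : ℝ) (hη : 0 ≤ η)
    (h0 : ∀ x y, ℓ0 x ≠ ℓ0 y → ent a x y ≠ 0 → f0 x = 0)
    (h2 : ∀ x y, ‖((f0 x * f0 y + f1 x * f1 y - 1 : ℝ) : ℂ) * ent a x y‖ ≤ η)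
    (h1 : ∀ x y, ℓ1 x ≠ ℓ1 y →
      ‖((u.p x * f1 x * (u.p y * f1 y) : ℝ) : ℂ) * ent a x y +
        ((u.p x * f1 x * (u.q y * f1 (u.ι y)) : ℝ) : ℂ) * ent a x (u.ι y) +
        ((u.q x * f1 (u.ι x) * (u.p y * f1 y) : ℝ) : ℂ) * ent a (u.ι x) y +
        ((u.q x * f1 (u.ι x) * (u.q y * f1 (u.ι y)) : ℝ) : ℂ) * ent a (u.ι x) (u.ι y)‖ ≤ η) :
    ‖1 * Ex ℓ0 (star (diag f0 hf0) * a * diag f0 hf0) * star 1 +
      u.U * Ex ℓ1 (star (diag f1 hf1 * u.U) * a * (diag f1 hf1 * u.U)) * star u.U - a‖ ≤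
      5 * N * η := by
  classical
  have e0 : Ex ℓ0 (star (diag f0 hf0) * a * diag f0 hf0) = diag f0 hf0 * a * diag f0 hf0 := by
    apply ent_ext
    intro x y
    rw [ent_Ex, star_diag]
    split_ifs with h
    · rfl
    · rw [ent_mul_diag, ent_diag_mul]
      by_cases h' : ent a x y = 0
      · simp [h']
      · simp [h0 x y h h']
  set b : B X := star (diag f1 hf1 * u.U) * a * (diag f1 hf1 * u.U) with hb
  have hb' : b = star u.U * ((diag f1 hf1 * a * diag f1 hf1) * u.U) := by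
    rw [hb, star_mul, star_diag]
    simp only [mul_assoc]
  have eb : ∀ x y, ent b x y = ((u.p x * f1 x * (u.p y * f1 y) : ℝ) : ℂ) * ent a x y +
        ((u.p x * f1 x * (u.q y * f1 (u.ι y)) : ℝ) : ℂ) * ent a x (u.ι y) +
        ((u.q x * f1 (u.ι x) * (u.p y * f1 y) : ℝ) : ℂ) * ent a (u.ι x) y +
        ((u.q x * f1 (u.ι x) * (u.q y * f1 (u.ι y)) : ℝ) : ℂ) * ent a (u.ι x) (u.ι y) := by
    intro x y
    rw [hb', Rot.ent_sU_mul, Rot.ent_mul_U, Rot.ent_mul_U]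
    simp only [ent_mul_diag, ent_diag_mul]
    push_cast
    ring
  have e1 : u.U * b * star u.U = diag f1 hf1 * a * diag f1 hf1 := by
    rw [hb', ← mul_assoc, u.U_sU, one_mul, mul_assoc, u.U_sU, mul_one]
  have n1 : ‖Ex ℓ1 b - b‖ ≤ (4 * N : ℕ) * η := by
    refine schur _ (4 * N) η hη
      (fun x => s x ∪ s (u.ι x) ∪ (s x).image u.ι ∪ (s (u.ι x)).image u.ι) (fun x => ?_)
      (fun x y h => ?_) (fun x y => ?_)
    · have a1 := Finset.card_union_le (s x ∪ s (u.ι x) ∪ (s x).image u.ι) ((s (u.ι x)).image u.ι)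
      have a2 := Finset.card_union_le (s x ∪ s (u.ι x)) ((s x).image u.ι)
      have a3 := Finset.card_union_le (s x) (s (u.ι x))
      have a4 := Finset.card_image_le (s := s x) (f := u.ι)
      have a5 := Finset.card_image_le (s := s (u.ι x)) (f := u.ι)
      have a6 := hs x
      have a7 := hs (u.ι x)
      omega
    · have hne : ent b x y ≠ 0 := by
        intro h'
        apply h
        rw [ent_sub, ent_Ex, h']
        simp
      have im : ∀ (z : X) (t : Finset X), u.ι z ∈ t → z ∈ t.image u.ι := fun z t hz =>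
        Finset.mem_image.2 ⟨_, hz, u.inv z⟩
      simp only [Finset.mem_union]
      by_cases c1 : ent a x y = 0
      · by_cases c2 : ent a x (u.ι y) = 0
        · by_cases c3 : ent a (u.ι x) y = 0
          · by_cases c4 : ent a (u.ι x) (u.ι y) = 0
            · exact absurd (by rw [eb, c1, c2, c3, c4]; simp) hne
            · exact ⟨Or.inr (im _ _ (ha _ _ c4).1), Or.inr (im _ _ (ha _ _ c4).2)⟩
          · exact ⟨Or.inl (Or.inl (Or.inr (ha _ _ c3).1)), Or.inl (Or.inr (im _ _ (ha _ _ c3).2))⟩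
        · exact ⟨Or.inl (Or.inr (im _ _ (ha _ _ c2).1)), Or.inl (Or.inl (Or.inr (ha _ _ c2).2))⟩
      · exact ⟨Or.inl (Or.inl (Or.inl (ha _ _ c1).1)), Or.inl (Or.inl (Or.inl (ha _ _ c1).2))⟩
    · rw [ent_sub, ent_Ex]
      split_ifs with h
      · simpa using hη
      · rw [zero_sub, norm_neg, eb]
        exact h1 x y h
  have n2 : ‖diag f0 hf0 * a * diag f0 hf0 + diag f1 hf1 * a * diag f1 hf1 - a‖ ≤ N * η := by
    have ee : ∀ x y, ent (diag f0 hf0 * a * diag f0 hf0 + diag f1 hf1 * a * diag f1 hf1 - a) x y =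
        ((f0 x * f0 y + f1 x * f1 y - 1 : ℝ) : ℂ) * ent a x y := by
      intro x y
      simp only [ent_sub, ent_add, ent_mul_diag, ent_diag_mul]
      push_cast
      ring
    refine schur _ N η hη s hs (fun x y h => ha x y fun h' => h ?_) (fun x y => ?_)
    · rw [ee, h', mul_zero]
    · rw [ee]; exact h2 x y
  have e2 : 1 * Ex ℓ0 (star (diag f0 hf0) * a * diag f0 hf0) * star 1 +
      u.U * Ex ℓ1 b * star u.U - a =
      (diag f0 hf0 * a * diag f0 hf0 + diag f1 hf1 * a * diag f1 hf1 - a) +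
        u.U * (Ex ℓ1 b - b) * star u.U := by
    rw [e0, star_one, one_mul, mul_one, mul_sub, sub_mul, e1]
    abel
  rw [e2]
  refine (norm_add_le _ _).trans ?_
  have n3 : ‖u.U * (Ex ℓ1 b - b) * star u.U‖ ≤ ‖Ex ℓ1 b - b‖ := by
    have hU := norm_le_one_of_isom u.sU_U
    calc ‖u.U * (Ex ℓ1 b - b) * star u.U‖ ≤ ‖u.U‖ * ‖Ex ℓ1 b - b‖ * ‖star u.U‖ :=
          (norm_mul_le _ _).trans (mul_le_mul_of_nonneg_right (norm_mul_le _ _) (norm_nonneg _))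
      _ ≤ 1 * ‖Ex ℓ1 b - b‖ * 1 := by
          rw [norm_star u.U]
          gcongr
      _ = _ := by ring
  push_cast at n1
  linarith

namespace Geo

variable (g : Geo)

open Real

/-- the angle of the weight -/
noncomputable def α (x : ℤ × ℤ) : ℝ := π / 2 * ((g.H x : ℝ) / g.L)

/-- the rotation parameter -/
def S (x : ℤ × ℤ) : ℤ := max 0 (min (2 * g.L) (x.2 - g.Λ * g.r x + g.L))

/-- the rotation angle -/
noncomputable def θ (x : ℤ × ℤ) : ℝ := π / 2 * ((g.S x : ℝ) / (2 * g.L))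

theorem L_pos : (0 : ℝ) < g.L := by exact_mod_cast g.hL

theorem θ_ι (x : ℤ × ℤ) : g.θ (g.ι x) = g.θ x := by
  unfold θ S r
  rw [g.ι_snd]

open Classical in
/-- cosine part -/
noncomputable def p (x : ℤ × ℤ) : ℝ := if g.Out x then 1 else cos (g.θ x)

open Classical in
/-- sine part -/
noncomputable def q (x : ℤ × ℤ) : ℝ :=
  if g.Mb (g.E x) x then sin (g.θ x) else if g.Rb (g.E x) x then - sin (g.θ x) else 0

theorem Mb.p_eq {g : Geo} {e x : ℤ × ℤ} (h : g.Mb e x) : g.p x = cos (g.θ x) := by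
  unfold p
  rw [if_neg fun h' => (h' e).1 h]

theorem Rb.p_eq {g : Geo} {e x : ℤ × ℤ} (h : g.Rb e x) : g.p x = cos (g.θ x) := by
  unfold p
  rw [if_neg fun h' => (h' e).2 h]

theorem Out.p_eq {g : Geo} {x : ℤ × ℤ} (h : g.Out x) : g.p x = 1 := by
  unfold p
  rw [if_pos h]

theorem Mb.q_eq {g : Geo} {e x : ℤ × ℤ} (h : g.Mb e x) : g.q x = sin (g.θ x) := by
  unfold q
  rw [h.E_eq, if_pos h]

theorem Rb.q_eq {g : Geo} {e x : ℤ × ℤ} (h : g.Rb e x) : g.q x = - sin (g.θ x) := by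
  unfold q
  rw [h.E_eq, if_neg h.not_mb, if_pos h]

theorem Out.q_eq {g : Geo} {x : ℤ × ℤ} (h : g.Out x) : g.q x = 0 := by
  unfold q
  rw [if_neg (h _).1, if_neg (h _).2]

/-- the rotation -/
noncomputable def rot : Rot (ℤ × ℤ) where
  ι := g.ι
  p := g.p
  q := g.q
  inv := g.ι_ι
  hp x := by
    rcases g.cls x with ⟨e, h⟩ | ⟨e, h⟩ | h
    · rw [h.p_eq, h.rb_ι.p_eq, θ_ι]
    · rw [h.p_eq, h.mb_ι.p_eq, θ_ι]
    · rw [h.ι_eq]
  hq x := by
    rcases g.cls x with ⟨e, h⟩ | ⟨e, h⟩ | h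
    · rw [h.q_eq, h.rb_ι.q_eq, θ_ι]
    · rw [h.q_eq, h.mb_ι.q_eq, θ_ι, neg_neg]
    · rw [h.ι_eq, h.q_eq, neg_zero]
  hpq x := by
    rcases g.cls x with ⟨e, h⟩ | ⟨e, h⟩ | h
    · rw [h.q_eq, h.p_eq, cos_sq_add_sin_sq]
    · rw [h.q_eq, h.p_eq, neg_sq, cos_sq_add_sin_sq]
    · rw [h.q_eq, h.p_eq]; norm_num

theorem H_ne_of_sin {x : ℤ × ℤ} (h : sin (g.α x) ≠ 0) : g.H x ≠ 0 := by
  intro h'
  apply h
  simp [α, h']

theorem H_ne_of_cos {x : ℤ × ℤ} (h : cos (g.α x) ≠ 0) : g.H x ≠ g.L := by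
  intro h'
  apply h
  rw [α, h', div_self g.L_pos.ne', mul_one, cos_pi_div_two]

theorem p_ne {x : ℤ × ℤ} (h : g.p x ≠ 0) : g.Out x ∨ x.2 < g.Λ * g.r x + g.L := by
  by_cases ho : g.Out x
  · exact Or.inl ho
  right
  by_contra hc
  apply h
  have : g.S x = 2 * g.L := by
    have := g.hL
    unfold S
    omega
  have hL := g.L_pos
  unfold p
  rw [if_neg ho, θ, this]
  push_cast
  rw [div_self (by positivity), mul_one, cos_pi_div_two]

theorem q_ne {x : ℤ × ℤ} (h : g.q x ≠ 0) : ¬ g.Out x ∧ g.Λ * g.r x - g.L < x.2 := by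
  refine ⟨fun ho => h ho.q_eq, ?_⟩
  by_contra hc
  apply h
  have : g.S x = 0 := by
    have := g.hL
    unfold S
    omega
  unfold q
  rw [θ, this]
  simp

theorem act1 {x : ℤ × ℤ} (h : g.p x * sin (g.α x) ≠ 0) : g.Act x x :=
  ⟨g.H_ne_of_sin (right_ne_zero_of_mul h), Or.inl ⟨rfl, g.p_ne (left_ne_zero_of_mul h)⟩⟩

theorem act2 {x : ℤ × ℤ} (h : g.q x * sin (g.α (g.ι x)) ≠ 0) : g.Act x (g.ι x) :=
  ⟨g.H_ne_of_sin (right_ne_zero_of_mul h), Or.inr ⟨rfl, g.q_ne (left_ne_zero_of_mul h)⟩⟩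

theorem exists_c (x : ℤ × ℤ) : ∃ c : ℝ, |c| ≤ 1 ∧ g.p x * sin (g.α x) = g.p x * c ∧
    g.q x * sin (g.α (g.ι x)) = g.q x * c := by
  by_cases h1 : g.q x = 0
  · exact ⟨_, abs_sin_le_one _, rfl, by rw [h1, zero_mul, zero_mul]⟩
  by_cases h2 : g.p x = 0
  · exact ⟨_, abs_sin_le_one _, by rw [h2, zero_mul, zero_mul], rfl⟩
  refine ⟨_, abs_sin_le_one _, rfl, ?_⟩
  obtain ⟨a1, a2⟩ := g.q_ne h1
  have a3 := (g.p_ne h2).resolve_left a1
  have : g.H (g.ι x) = g.H x := by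
    rcases g.cls x with ⟨e, h⟩ | ⟨e, h⟩ | h
    · have h3 : g.r x = e.2 := congrArg Prod.snd h.E_eq
      rw [h3] at a2 a3
      exact (g.H_match h (by rw [h.ι_eq]) (g.ι_snd x) ⟨a2, a3⟩).symm
    · have h3 : g.r x = e.2 := congrArg Prod.snd h.E_eq
      rw [h3] at a2 a3
      exact g.H_match h.mb_ι (by rw [h.ι_eq]; simp) (g.ι_snd x).symm
        (by rw [g.ι_snd]; exact ⟨a2, a3⟩)
    · exact absurd h a1
  rw [α, α, this]

theorem α_lip {R : ℤ} {x y : ℤ × ℤ} (h : Cl R x y) : |g.α x - g.α y| ≤ 2 * R / g.L := by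
  have h1 : (g.H x : ℝ) ≤ g.H y + R := by exact_mod_cast g.H_lip h
  have h2 : (g.H y : ℝ) ≤ g.H x + R := by exact_mod_cast g.H_lip h.symm
  have hL := g.L_pos
  have h3 : |(g.H x : ℝ) - g.H y| ≤ R := abs_le.2 ⟨by linarith, by linarith⟩
  have : g.α x - g.α y = π / 2 * ((g.H x : ℝ) - g.H y) / g.L := by
    unfold α; ring
  rw [this, abs_div, abs_of_pos hL, abs_mul, abs_of_pos (by positivity : 0 < π / 2)]
  have := pi_le_four
  gcongr
  linarith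

theorem θ_lip {R : ℤ} {x y : ℤ × ℤ} (hr : g.r x = g.r y) (h1 : x.2 ≤ y.2 + R) (h2 : y.2 ≤ x.2 + R) :
    |g.θ x - g.θ y| ≤ 2 * R / g.L := by
  have a1 : g.S x ≤ g.S y + R := by unfold S; rw [hr]; omega
  have a2 : g.S y ≤ g.S x + R := by unfold S; rw [hr]; omega
  have h1 : (g.S x : ℝ) ≤ g.S y + R := by exact_mod_cast a1
  have h2 : (g.S y : ℝ) ≤ g.S x + R := by exact_mod_cast a2
  have hL := g.L_pos
  have h3 : |(g.S x : ℝ) - g.S y| ≤ R := abs_le.2 ⟨by linarith, by linarith⟩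
  have : g.θ x - g.θ y = π / 4 * ((g.S x : ℝ) - g.S y) / g.L := by
    unfold θ; ring
  rw [this, abs_div, abs_of_pos hL, abs_mul, abs_of_pos (by positivity : 0 < π / 4)]
  have := pi_le_four
  gcongr
  linarith

theorem one_sub_cos (t : ℝ) : |cos t - 1| ≤ |t| := by
  have := abs_cos_sub_cos_le t 0
  simpa using this

theorem f_lip {R : ℤ} {x y : ℤ × ℤ} (h : Cl R x y) :
    |cos (g.α x) * cos (g.α y) + sin (g.α x) * sin (g.α y) - 1| ≤ 2 * R / g.L := by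
  rw [← cos_sub]
  exact (one_sub_cos _).trans (g.α_lip h)

theorem pq_lip {R : ℤ} {x y e : ℤ × ℤ} (h : (g.Mb e x ∧ g.Rb e y) ∨ (g.Rb e x ∧ g.Mb e y))
    (hc : Cl R x (g.ι y)) : |g.p x * g.q y + g.q x * g.p y| ≤ 2 * R / g.L := by
  have hr : g.r x = g.r y := by
    rcases h with ⟨h1, h2⟩ | ⟨h1, h2⟩
    · exact congrArg Prod.snd (h1.E_eq.trans h2.E_eq.symm)
    · exact congrArg Prod.snd (h1.E_eq.trans h2.E_eq.symm)
  have hl := g.θ_lip hr (R := R) (by rw [← g.ι_snd y]; exact hc.2.2.1)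
    (by rw [← g.ι_snd y]; exact hc.2.2.2)
  refine le_trans ?_ ((abs_sin_le_abs (x := g.θ x - g.θ y)).trans hl)
  rw [sin_sub]
  rcases h with ⟨h1, h2⟩ | ⟨h1, h2⟩
  · rw [h1.p_eq, h1.q_eq, h2.p_eq, h2.q_eq]
    exact le_of_eq (by congr 1; ring)
  · rw [h1.p_eq, h1.q_eq, h2.p_eq, h2.q_eq, ← abs_neg]
    exact le_of_eq (by congr 1; ring)

theorem key {R : ℤ} (hR : 0 ≤ R) (hRL : R ≤ g.L) (A : ℤ × ℤ → ℤ × ℤ → ℂ) (C δ : ℝ) (hδ : 0 ≤ δ)
    (h1 : ∀ x y, A x y ≠ 0 → Cl R x y) (h2 : ∀ x y, ‖A x y‖ ≤ C)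
    (h3 : ∀ e x y, g.Mb e x → g.Mb e y → ‖A (g.ι x) (g.ι y) - A x y‖ ≤ δ)
    (x y : ℤ × ℤ) (hD : g.D x ≠ g.D y) :
    ‖((g.p x * sin (g.α x) * (g.p y * sin (g.α y)) : ℝ) : ℂ) * A x y +
        ((g.p x * sin (g.α x) * (g.q y * sin (g.α (g.ι y))) : ℝ) : ℂ) * A x (g.ι y) +
        ((g.q x * sin (g.α (g.ι x)) * (g.p y * sin (g.α y)) : ℝ) : ℂ) * A (g.ι x) y +
        ((g.q x * sin (g.α (g.ι x)) * (g.q y * sin (g.α (g.ι y))) : ℝ) : ℂ) * A (g.ι x) (g.ι y)‖ ≤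
      2 * R / g.L * C + δ := by
  have hL := g.L_pos
  have hC : 0 ≤ C := (norm_nonneg _).trans (h2 x y)
  have hR' : (0 : ℝ) ≤ R := by exact_mod_cast hR
  by_cases hb : ∃ e, (g.Mb e x ∧ g.Rb e y) ∨ (g.Rb e x ∧ g.Mb e y)
  · obtain ⟨e, he⟩ := hb
    have z1 : A x y = 0 := by
      by_contra h
      have := (h1 _ _ h).mono hRL
      rcases he with ⟨a1, a2⟩ | ⟨a1, a2⟩
      · exact g.far a1 a2 this
      · exact g.far a2 a1 this.symm
    have z2 : A (g.ι x) (g.ι y) = 0 := by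
      by_contra h
      have := (h1 _ _ h).mono hRL
      rcases he with ⟨a1, a2⟩ | ⟨a1, a2⟩
      · exact g.far a2.mb_ι a1.rb_ι this.symm
      · exact g.far a1.mb_ι a2.rb_ι this
    have z3 : ‖A (g.ι x) y - A x (g.ι y)‖ ≤ δ := by
      rcases he with ⟨a1, a2⟩ | ⟨a1, a2⟩
      · have := h3 e x (g.ι y) a1 a2.mb_ι
        rwa [g.ι_ι] at this
      · have := h3 e (g.ι x) y a1.mb_ι a2
        rwa [g.ι_ι, norm_sub_rev] at this
    obtain ⟨c, c1, c2, c3⟩ := g.exists_c x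
    obtain ⟨d, d1, d2, d3⟩ := g.exists_c y
    rw [z1, z2, c2, c3, d2, d3, mul_zero, mul_zero, zero_add, add_zero]
    have e1 : ((g.p x * c * (g.q y * d) : ℝ) : ℂ) * A x (g.ι y) +
        ((g.q x * c * (g.p y * d) : ℝ) : ℂ) * A (g.ι x) y =
        ((c * d : ℝ) : ℂ) * (((g.p x * g.q y + g.q x * g.p y : ℝ) : ℂ) * A x (g.ι y) +
          ((g.q x * g.p y : ℝ) : ℂ) * (A (g.ι x) y - A x (g.ι y))) := by
      push_cast
      ring
    have n1 : ‖((c * d : ℝ) : ℂ)‖ ≤ 1 := by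
      rw [Complex.norm_real, Real.norm_eq_abs, abs_mul]
      exact mul_le_one₀ c1 (abs_nonneg _) d1
    have n2 : ‖((g.q x * g.p y : ℝ) : ℂ)‖ ≤ 1 := by
      rw [Complex.norm_real, Real.norm_eq_abs, abs_mul]
      exact mul_le_one₀ (g.rot.q_le x) (abs_nonneg _) (g.rot.p_le y)
    have n3 : ‖((g.p x * g.q y + g.q x * g.p y : ℝ) : ℂ) * A x (g.ι y)‖ ≤ 2 * R / g.L * C := by
      by_cases h : A x (g.ι y) = 0
      · rw [h, mul_zero, norm_zero]; positivity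
      · rw [norm_mul, Complex.norm_real, Real.norm_eq_abs]
        exact mul_le_mul (g.pq_lip he (h1 _ _ h)) (h2 _ _) (norm_nonneg _) (by positivity)
    have n4 : ‖((g.q x * g.p y : ℝ) : ℂ) * (A (g.ι x) y - A x (g.ι y))‖ ≤ δ := by
      rw [norm_mul]
      calc _ ≤ 1 * δ := mul_le_mul n2 z3 (norm_nonneg _) zero_le_one
        _ = δ := one_mul δ
    rw [e1, norm_mul]
    calc _ ≤ 1 * (2 * R / g.L * C + δ) :=
          mul_le_mul n1 ((norm_add_le _ _).trans (add_le_add n3 n4)) (norm_nonneg _) zero_le_one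
      _ = _ := one_mul _
  · have z : ∀ (c d : ℝ) (u v : ℤ × ℤ), (c ≠ 0 → g.Act x u) → (d ≠ 0 → g.Act y v) →
        ((c * d : ℝ) : ℂ) * A u v = 0 := by
      intro c d u v hc hd
      by_cases a1 : c = 0
      · simp [a1]
      by_cases a2 : d = 0
      · simp [a2]
      by_cases a3 : A u v = 0
      · simp [a3]
      rcases g.act_act (hc a1) (hd a2) ((h1 _ _ a3).mono hRL) with h | h
      · exact absurd h hD
      · exact absurd h hb
    rw [z _ _ _ _ g.act1 g.act1, z _ _ _ _ g.act1 g.act2, z _ _ _ _ g.act2 g.act1,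
      z _ _ _ _ g.act2 g.act2]
    simp only [add_zero, norm_zero]
    positivity

end Geo

theorem exists_geo (L : ℤ) (hL : 0 < L) {T : Type} [Fintype T] (cl : ℤ × ℤ → T) :
    ∃ g : Geo, g.L = L ∧ ∀ e : ℤ × ℤ,
      cl (g.Λ * e.1 + g.t e, g.Λ * e.2) = cl (g.Λ * e.1 + g.t' e, g.Λ * e.2) := by
  set P := Fintype.card T
  have h : ∀ e : ℤ × ℤ, ∃ i j : ℕ, i < j ∧ j ≤ P ∧
      cl (20 * L * (P + 2) * e.1 + 20 * L * (i + 1), 20 * L * (P + 2) * e.2) =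
      cl (20 * L * (P + 2) * e.1 + 20 * L * (j + 1), 20 * L * (P + 2) * e.2) := by
    intro e
    obtain ⟨i, j, hij, h⟩ := Fintype.exists_ne_map_eq_of_card_lt (fun i : Fin (P + 1) =>
      cl (20 * L * (P + 2) * e.1 + 20 * L * ((i : ℕ) + 1), 20 * L * (P + 2) * e.2)) (by simp [P])
    rcases lt_or_gt_of_ne hij with h' | h'
    · exact ⟨i, j, h', Nat.lt_succ_iff.1 j.2, h⟩
    · exact ⟨j, i, h', Nat.lt_succ_iff.1 i.2, h.symm⟩
  choose i j h1 h2 h3 using h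
  refine ⟨⟨L, 10 * L * (P + 2), 20 * L * (P + 2), fun e => 20 * L * (i e + 1),
    fun e => 20 * L * (j e + 1), hL, by ring, fun e => ?_, fun e => ?_, fun e => ?_⟩, rfl, h3⟩
  · have : (0 : ℤ) ≤ i e := by positivity
    nlinarith
  · have : (i e : ℤ) + 1 ≤ j e := by exact_mod_cast h1 e
    nlinarith
  · have : (j e : ℤ) ≤ P := by exact_mod_cast h2 e
    nlinarith

end Pool.Agent.H562Z.Roe
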