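import Mathlib

/-!
# Uniform Roe algebras, asymptotic dimension, nuclear dimension: definitions
-/

set_option autoImplicit false

namespace Pool.Agent.H562Z.Roe

open scoped CStarAlgebra InnerProductSpace

/-- bounded geometry: for every radius the balls have uniformly bounded cardinality -/
def BoundedGeometry (X : Type) [MetricSpace X] : Prop :=
  ∀ r : ℝ, 0 < r → ∃ N : ℕ, ∀ x : X, (Metric.ball x r).encard ≤ N

/-- For every `R > 0` there is a cover by sets of uniformly bounded diameter such that every ball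
of radius `R` meets at most `n + 1` members. -/
def AsdimLE (X : Type) [MetricSpace X] (n : ℕ) : Prop :=
  ∀ R : ℝ, 0 < R → ∃ (𝒰 : Set (Set X)) (S : ℝ), (∀ x, ∃ U ∈ 𝒰, x ∈ U) ∧
    (∀ U ∈ 𝒰, ∀ x ∈ U, ∀ y ∈ U, dist x y ≤ S) ∧
    ∀ x, {U | U ∈ 𝒰 ∧ (U ∩ Metric.ball x R).Nonempty}.encard ≤ n + 1

/-- asymptotic dimension -/
noncomputable def asdim (X : Type) [MetricSpace X] : ℕ∞ := ⨅ (n : ℕ) (_ : AsdimLE X n), (n : ℕ∞)

/-- `(n+1)`-coloured completely positive approximations through a finite dimensional C*-algebra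
`F = F 0 ⊕ ⋯ ⊕ F n`: `ψ` is a completely positive contraction, `φ` is completely positive and its
restriction to each `F i` is contractive and order zero. -/
def NucDimLE (A : Type) [CStarAlgebra A] [PartialOrder A] [StarOrderedRing A] (n : ℕ) : Prop :=
  ∀ (𝓕 : Finset A) (ε : ℝ), 0 < ε → ∃ (F : Fin (n + 1) → Type) (_ : ∀ i, CStarAlgebra (F i))
    (_ : ∀ i, FiniteDimensional ℂ (F i)) (_ : PartialOrder (Π i, F i))
    (_ : StarOrderedRing (Π i, F i)) (ψ : A →CP (Π i, F i)) (φ : (Π i, F i) →CP A),
    (∀ a, ‖ψ a‖ ≤ ‖a‖) ∧ (∀ (i : Fin (n + 1)) (x : F i), ‖φ (Pi.single i x)‖ ≤ ‖x‖) ∧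
    (∀ (i : Fin (n + 1)) (x y : F i), IsSelfAdjoint x → IsSelfAdjoint y → x * y = 0 →
      φ (Pi.single i x) * φ (Pi.single i y) = 0) ∧
    ∀ a ∈ 𝓕, ‖φ (ψ a) - a‖ < ε

/-- nuclear dimension -/
noncomputable def nucDim (A : Type) [CStarAlgebra A] [PartialOrder A] [StarOrderedRing A] : ℕ∞ :=
  ⨅ (n : ℕ) (_ : NucDimLE A n), (n : ℕ∞)

/-- the Hilbert space `ℓ²(X)` -/
def Ell2 (X : Type) : Type := lp (fun _ : X => ℂ) 2

noncomputable instance (X : Type) : NormedAddCommGroup (Ell2 X) := lp.normedAddCommGroup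

noncomputable instance (X : Type) : InnerProductSpace ℂ (Ell2 X) := lp.instInnerProductSpace

instance (X : Type) : CompleteSpace (Ell2 X) := lp.completeSpace

open Classical in
/-- the basis vector `δ_x` -/
noncomputable def dirac {X : Type} (x : X) : Ell2 X := lp.single (E := fun _ : X => ℂ) 2 x (1 : ℂ)

/-- the bounded operators on a Hilbert space -/
def BH (H : Type) [NormedAddCommGroup H] [InnerProductSpace ℂ H] : Type := H →L[ℂ] H

noncomputable instance (H : Type) [NormedAddCommGroup H] [InnerProductSpace ℂ H]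
    [CompleteSpace H] : CStarAlgebra (BH H) := (inferInstance : CStarAlgebra (H →L[ℂ] H))

/-- the matrix coefficient `⟪u, T v⟫` -/
noncomputable def coeff {H : Type} [NormedAddCommGroup H] [InnerProductSpace ℂ H] (T : BH H)
    (u v : H) : ℂ := ⟪u, (show H →L[ℂ] H from T) v⟫_ℂ

/-- bounded operators of finite propagation on `ℓ²(X)` -/
def FiniteProp (X : Type) [MetricSpace X] : Set (BH (Ell2 X)) :=
  {T | ∃ R : ℝ, ∀ x y : X, R < dist x y → coeff T (dirac x) (dirac y) = 0}

/-- the norm closure of the unital star algebra generated by a set -/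
noncomputable def genSub {A : Type} [CStarAlgebra A] (S : Set A) : StarSubalgebra ℂ A :=
  (StarAlgebra.adjoin ℂ S).topologicalClosure

theorem genSub_closed {A : Type} [CStarAlgebra A] (S : Set A) : IsClosed (genSub S : Set A) :=
  StarSubalgebra.isClosed_topologicalClosure _

/-- the unital C*-algebra generated by a set, as a type -/
def Gen {A : Type} [CStarAlgebra A] (S : Set A) : Type := genSub S

noncomputable instance {A : Type} [CStarAlgebra A] (S : Set A) : CStarAlgebra (Gen S) :=
  StarSubalgebra.cstarAlgebra (genSub S) (h_closed := genSub_closed S)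

/-- the generated C*-algebra is just the norm closure of the set -/
def GenIsClosure {A : Type} [CStarAlgebra A] (S : Set A) : Prop := (genSub S : Set A) = closure S

end Pool.Agent.H562Z.Roe
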